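import Mathlib

/-!
# An Eisenstein curve: `∏ (x - r_i z) - z ∏ (y - q_n z)` is irreducible
-/

namespace Pool.Agent.Helper95.ME

open MvPolynomial

section
variable {k : Type*} [Field k]

/-- the variable `z` of `k[y, z]` -/
private noncomputable def zz (k : Type*) [Field k] : MvPolynomial (Fin 2) k := X 1

private theorem zz_prime : Prime (zz k) := MvPolynomial.X_prime

private theorem not_dvd_factor (q : k) : ¬ zz k ∣ (X 0 - C q * X 1 : MvPolynomial (Fin 2) k) := by
  rintro ⟨D, hD⟩
  have h1 := congrArg (MvPolynomial.eval (fun i : Fin 2 => if i = 0 then (1 : k) else 0)) hD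
  simp [zz] at h1

private theorem not_dvd_prod (q : ℕ → k) (m : ℕ) :
    ¬ zz k ∣ (∏ n ∈ Finset.range m, (X 0 - C (q n) * X 1 : MvPolynomial (Fin 2) k)) := by
  intro h
  obtain ⟨n, -, hn⟩ := (zz_prime (k := k)).exists_mem_finset_dvd h
  exact not_dvd_factor (q n) hn

/-- the image of the polynomial in `k[y, z][x]` -/
private noncomputable def ff (g : ℕ) (r q : ℕ → k) : Polynomial (MvPolynomial (Fin 2) k) :=
  (∏ i ∈ Finset.range g, (Polynomial.X - Polynomial.C (C (r i) * X 1))) -
    Polynomial.C (X 1 * ∏ n ∈ Finset.range (g - 1), (X 0 - C (q n) * X 1))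

private theorem prod_monic (g : ℕ) (r : ℕ → k) :
    (∏ i ∈ Finset.range g, (Polynomial.X - Polynomial.C (C (r i) * X 1 :
      MvPolynomial (Fin 2) k))).Monic :=
  Polynomial.monic_prod_of_monic _ _ fun _ _ => Polynomial.monic_X_sub_C _

private theorem prod_degree (g : ℕ) (r : ℕ → k) :
    (∏ i ∈ Finset.range g, (Polynomial.X - Polynomial.C (C (r i) * X 1 :
      MvPolynomial (Fin 2) k))).degree = (g : WithBot ℕ) := by
  rw [Polynomial.degree_prod_of_monic _ _ fun _ _ => Polynomial.monic_X_sub_C _,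
    Finset.sum_congr rfl (fun _ _ => Polynomial.degree_X_sub_C _)]
  simp

private theorem ff_monic {g : ℕ} (hg : 1 ≤ g) (r q : ℕ → k) : (ff g r q).Monic := by
  unfold ff
  apply (prod_monic g r).sub_of_left
  rw [prod_degree]
  refine lt_of_le_of_lt Polynomial.degree_C_le ?_
  exact_mod_cast hg

private theorem ff_degree {g : ℕ} (hg : 1 ≤ g) (r q : ℕ → k) : (ff g r q).degree = (g : WithBot ℕ) := by
  unfold ff
  rw [Polynomial.degree_sub_eq_left_of_degree_lt, prod_degree]
  rw [prod_degree]
  refine lt_of_le_of_lt Polynomial.degree_C_le ?_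
  exact_mod_cast hg

private theorem ff_coeff (g : ℕ) (r q : ℕ → k) {n : ℕ} (hn : n < g) :
    (ff g r q).coeff n ∈ Ideal.span {zz k} := by
  have h1 : (∏ i ∈ Finset.range g, (Polynomial.X - Polynomial.C (C (r i) * X 1 :
      MvPolynomial (Fin 2) k))).coeff n ∈ Ideal.span {zz k} := by
    rw [← Ideal.Quotient.eq_zero_iff_mem]
    rw [← Polynomial.coeff_map, Polynomial.map_prod]
    have h2 : ∀ i ∈ Finset.range g, Polynomial.map (Ideal.Quotient.mk (Ideal.span {zz k}))
        (Polynomial.X - Polynomial.C (C (r i) * X 1 : MvPolynomial (Fin 2) k)) =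
        Polynomial.X := by
      intro i _
      rw [Polynomial.map_sub, Polynomial.map_X, Polynomial.map_C]
      have h3 : Ideal.Quotient.mk (Ideal.span {zz k}) (C (r i) * X 1) = 0 := by
        rw [Ideal.Quotient.eq_zero_iff_mem]
        exact Ideal.mul_mem_left _ _ (Ideal.subset_span rfl)
      rw [h3, Polynomial.C_0, sub_zero]
    rw [Finset.prod_congr rfl h2, Finset.prod_const, Finset.card_range, Polynomial.coeff_X_pow,
      if_neg (by omega)]
  unfold ff
  rw [Polynomial.coeff_sub, Polynomial.coeff_C]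
  apply Ideal.sub_mem _ h1
  split_ifs
  · exact Ideal.mul_mem_right _ _ (Ideal.subset_span rfl)
  · exact Ideal.zero_mem _

private theorem ff_coeff_zero {g : ℕ} (hg : 2 ≤ g) (r q : ℕ → k) :
    (ff g r q).coeff 0 ∉ (Ideal.span {zz k}) ^ 2 := by
  rw [Ideal.span_singleton_pow, Ideal.mem_span_singleton]
  intro h
  unfold ff at h
  rw [Polynomial.coeff_sub, Polynomial.coeff_C_zero, Polynomial.coeff_zero_prod] at h
  have h1 : zz k ^ 2 ∣ ∏ i ∈ Finset.range g, (Polynomial.X - Polynomial.C (C (r i) * X 1 :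
      MvPolynomial (Fin 2) k)).coeff 0 := by
    have h2 : ∀ i ∈ Finset.range g, (Polynomial.X - Polynomial.C (C (r i) * X 1 :
      MvPolynomial (Fin 2) k)).coeff 0 = zz k * C (-r i) := by
      intro i _
      rw [Polynomial.coeff_sub, Polynomial.coeff_X_zero, Polynomial.coeff_C_zero, C_neg]
      unfold zz
      ring
    rw [Finset.prod_congr rfl h2, Finset.prod_mul_distrib, Finset.prod_const, Finset.card_range]
    exact (pow_dvd_pow _ hg).trans (Dvd.intro _ rfl)
  have h3 : zz k ^ 2 ∣ X 1 * ∏ n ∈ Finset.range (g - 1), (X 0 - C (q n) * X 1) := by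
    have h4 := dvd_sub h1 h
    rwa [sub_sub_cancel] at h4
  rw [pow_two] at h3
  have h5 : zz k ∣ ∏ n ∈ Finset.range (g - 1), (X 0 - C (q n) * X 1) :=
    (mul_dvd_mul_iff_left (zz_prime (k := k)).ne_zero).1 h3
  exact not_dvd_prod q (g - 1) h5

private theorem ff_irreducible {g : ℕ} (hg : 1 ≤ g) (r q : ℕ → k) : Irreducible (ff g r q) := by
  rcases Nat.lt_or_ge 1 g with h2 | h2
  · have hP : (Ideal.span {zz k}).IsPrime :=
      (Ideal.span_singleton_prime (zz_prime (k := k)).ne_zero).2 zz_prime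
    refine Polynomial.irreducible_of_eisenstein_criterion hP ?_ ?_ ?_ ?_ ?_
    · rw [(ff_monic hg r q).leadingCoeff]
      exact fun h => hP.ne_top ((Ideal.eq_top_iff_one _).2 h)
    · intro n hn
      rw [ff_degree hg] at hn
      exact ff_coeff g r q (by exact_mod_cast hn)
    · rw [ff_degree hg]
      exact_mod_cast hg
    · exact ff_coeff_zero h2 r q
    · exact (ff_monic hg r q).isPrimitive
  · have hg1 : g = 1 := by omega
    subst hg1
    exact (ff_monic hg r q).irreducible_of_degree_eq_one (ff_degree hg r q)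

end

/-- the curve `∏ (x - r_i z) = z ∏ (y - q_n z)` of degree `g` is irreducible -/
theorem Fg_irreducible {k : Type*} [Field k] {g : ℕ} (hg : 1 ≤ g) (r q : ℕ → k) :
    Irreducible ((∏ i ∈ Finset.range g, (X 0 - C (r i) * X 2)) -
      X 2 * ∏ n ∈ Finset.range (g - 1), (X 1 - C (q n) * X 2) : MvPolynomial (Fin 3) k) := by
  rw [← MulEquiv.irreducible_iff (MvPolynomial.finSuccEquiv k 2)]
  have h2 : (X 2 : MvPolynomial (Fin 3) k) = X (Fin.succ 1) := rfl
  have h1 : (X 1 : MvPolynomial (Fin 3) k) = X (Fin.succ 0) := rfl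
  convert ff_irreducible hg r q using 1
  unfold ff
  rw [map_sub, map_mul, map_prod, map_prod, h2, h1, finSuccEquiv_X_succ]
  congr 1
  · refine Finset.prod_congr rfl fun i _ => ?_
    rw [map_sub, map_mul, finSuccEquiv_X_zero, finSuccEquiv_X_succ]
    simp [MvPolynomial.finSuccEquiv_apply]
  · rw [Polynomial.C_mul, map_prod]
    congr 1
    refine Finset.prod_congr rfl fun i _ => ?_
    rw [map_sub, map_mul, finSuccEquiv_X_succ, finSuccEquiv_X_succ]
    simp [MvPolynomial.finSuccEquiv_apply]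

end Pool.Agent.Helper95.ME
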