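import Pool.Agent.Helper95.ME.Depth

/-!
Columns: definitions.
-/

set_option autoImplicit false

namespace Pool.Agent.Helper95.ME

open MvPolynomial Module Pool.Agent.Helper95.MI

/-- multiplication by `v` is injective modulo `I` -/
def Reg {S : Type*} [CommRing S] (v : S) (I : Ideal S) : Prop := ∀ f, f * v ∈ I → f ∈ I

section

variable {k : Type*} [Field k]

/-- the product of the first `n` columns -/
noncomputable def al (b : ℕ → SS k) (n : ℕ) : SS k := ∏ i ∈ Finset.range n, b i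

/-- the residual ideals -/
noncomputable def Jc (b gg : ℕ → SS k) : ℕ → Ideal (SS k)
  | 0 => ⊤
  | n + 1 => Ideal.span {gg n} ⊔ Ideal.span {b n} * Jc b gg n

/-- a sequence of columns -/
structure Cols (F β : SS k) (b gg : ℕ → SS k) (τ : ℕ) : Prop where
  mem : ∀ n < τ, gg n ∈ Jc b gg n
  prime : ∀ n < τ, Prime (b n)
  ndvd : ∀ n < τ, ¬ b n ∣ F
  ndvd' : ∀ n < τ, ¬ b n ∣ gg n
  gmul : ∀ n < τ, gg n * β ∈ Ideal.span {F} ⊔ Ideal.span {al b (n + 1)}
  colon : ∀ n < τ, ∀ f, f * β ∈ Ideal.span {F} ⊔ Ideal.span {b n} →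
    f ∈ Ideal.span {gg n} ⊔ Ideal.span {b n}

end

end Pool.Agent.Helper95.ME
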