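import Pool.Agent.Helper95.ME.ColDefs

/-!
The residual ideals of a sequence of columns.
-/

set_option autoImplicit false

namespace Pool.Agent.Helper95.ME

open MvPolynomial Module Pool.Agent.Helper95.MI

section RegLemmas

variable {S : Type*} [CommRing S]

theorem mem_sup_span_iff {a b f : S} :
    f ∈ Ideal.span {a} ⊔ Ideal.span {b} ↔ ∃ u v, f = a * u + b * v := by
  constructor
  · intro h
    obtain ⟨y, hy, z, hz, h3⟩ := Submodule.mem_sup.1 h
    obtain ⟨u, rfl⟩ := Ideal.mem_span_singleton'.1 hy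
    obtain ⟨v, rfl⟩ := Ideal.mem_span_singleton'.1 hz
    exact ⟨u, v, by rw [← h3]; ring⟩
  · rintro ⟨u, v, rfl⟩
    exact Submodule.add_mem_sup (Ideal.mul_mem_right _ _ (Ideal.mem_span_singleton_self _))
      (Ideal.mul_mem_right _ _ (Ideal.mem_span_singleton_self _))

theorem Reg.mul {v w : S} {I : Ideal S} (hv : Reg v I) (hw : Reg w I) : Reg (v * w) I := by
  intro f hf
  apply hv
  apply hw
  rwa [mul_assoc]

theorem Reg.one {I : Ideal S} : Reg (1 : S) I := by
  intro f hf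
  rwa [mul_one] at hf

theorem Reg.prod {ι : Type*} (s : Finset ι) {v : ι → S} {I : Ideal S} (hv : ∀ i ∈ s, Reg (v i) I) :
    Reg (∏ i ∈ s, v i) I := by
  classical
  induction s using Finset.induction_on with
  | empty =>
    rw [Finset.prod_empty]
    exact Reg.one
  | insert a s ha ih =>
    rw [Finset.prod_insert ha]
    exact (hv a (Finset.mem_insert_self _ _)).mul
      (ih fun i hi => hv i (Finset.mem_insert_of_mem hi))

theorem Reg.pow {v : S} {I : Ideal S} (hv : Reg v I) (n : ℕ) : Reg (v ^ n) I := by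
  induction n with
  | zero =>
    rw [pow_zero]
    exact Reg.one
  | succ n ih =>
    rw [pow_succ]
    exact ih.mul hv

theorem Reg.congr {v w : S} {I : Ideal S} (hv : Reg v I) (h : w - v ∈ I) : Reg w I := by
  intro f hf
  apply hv
  have : f * v = f * w - f * (w - v) := by ring
  rw [this]
  exact I.sub_mem hf (I.mul_mem_left _ h)

/-- regular modulo a product -/
theorem Reg.of_mul [IsDomain S] {v g₁ g₂ b : S} (hb : Prime b) (hd : ¬ b ∣ g₁)
    (h1 : Reg v (Ideal.span {g₁} ⊔ Ideal.span {b})) (h2 : Reg v (Ideal.span {g₂} ⊔ Ideal.span {b})) :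
    Reg v (Ideal.span {g₁ * g₂} ⊔ Ideal.span {b}) := by
  intro f hf
  obtain ⟨u, w, h3⟩ := mem_sup_span_iff.1 hf
  have h4 : f * v ∈ Ideal.span {g₁} ⊔ Ideal.span {b} := by
    rw [mem_sup_span_iff]
    exact ⟨g₂ * u, w, by rw [h3]; ring⟩
  obtain ⟨u', w', h5⟩ := mem_sup_span_iff.1 (h1 f h4)
  have h6 : b ∣ g₁ * (u' * v - g₂ * u) := by
    refine ⟨w - w' * v, ?_⟩
    rw [h5] at h3
    linear_combination h3
  obtain ⟨y, hy⟩ := (hb.dvd_or_dvd h6).resolve_left hd
  have h7 : u' * v ∈ Ideal.span {g₂} ⊔ Ideal.span {b} := by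
    rw [mem_sup_span_iff]
    exact ⟨u, y, by linear_combination hy⟩
  obtain ⟨u'', w'', h8⟩ := mem_sup_span_iff.1 (h2 _ h7)
  rw [mem_sup_span_iff]
  exact ⟨u'', g₁ * w'' + w', by rw [h5, h8]; ring⟩

/-- regular modulo a factor -/
theorem Reg.of_dvd [IsDomain S] {v g₁ g₂ b : S} (hb : Prime b) (hd : ¬ b ∣ g₁)
    (h : Reg v (Ideal.span {g₁ * g₂} ⊔ Ideal.span {b})) :
    Reg v (Ideal.span {g₂} ⊔ Ideal.span {b}) := by
  intro f hf
  obtain ⟨u, w, h3⟩ := mem_sup_span_iff.1 hf
  have h4 : (g₁ * f) * v ∈ Ideal.span {g₁ * g₂} ⊔ Ideal.span {b} := by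
    rw [mem_sup_span_iff]
    exact ⟨u, g₁ * w, by rw [mul_assoc, h3]; ring⟩
  obtain ⟨u', w', h5⟩ := mem_sup_span_iff.1 (h _ h4)
  have h6 : b ∣ g₁ * (f - g₂ * u') := ⟨w', by linear_combination h5⟩
  obtain ⟨y, hy⟩ := (hb.dvd_or_dvd h6).resolve_left hd
  rw [mem_sup_span_iff]
  exact ⟨u', y, by linear_combination hy⟩

theorem Reg.swap [IsDomain S] {v g b : S} (hb : Prime b) (hg : ¬ b ∣ g)
    (h : Reg v (Ideal.span {g} ⊔ Ideal.span {b})) : Reg g (Ideal.span {v} ⊔ Ideal.span {b}) := by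
  intro f hf
  obtain ⟨u, w, h3⟩ := mem_sup_span_iff.1 hf
  have h4 : u * v ∈ Ideal.span {g} ⊔ Ideal.span {b} := by
    rw [mem_sup_span_iff]
    exact ⟨f, -w, by linear_combination -h3⟩
  obtain ⟨u', w', h5⟩ := mem_sup_span_iff.1 (h _ h4)
  have h6 : b ∣ g * (f - v * u') := by
    refine ⟨w + v * w', ?_⟩
    rw [h5] at h3
    linear_combination h3
  obtain ⟨y, hy⟩ := (hb.dvd_or_dvd h6).resolve_left hg
  rw [mem_sup_span_iff]
  exact ⟨u', y, by linear_combination hy⟩

end RegLemmas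

section

variable {k : Type*} [Field k]

theorem al_succ (b : ℕ → SS k) (n : ℕ) : al b (n + 1) = al b n * b n := by
  rw [al, al, Finset.prod_range_succ]

theorem al_dvd (b : ℕ → SS k) {m n : ℕ} (h : m ≤ n) : al b m ∣ al b n :=
  Finset.prod_dvd_prod_of_subset _ _ _ (Finset.range_mono h)

theorem al_hom {b : ℕ → SS k} {n : ℕ} (hb : ∀ i < n, (b i).IsHomogeneous 1) :
    (al b n).IsHomogeneous n := by
  have h := IsHomogeneous.prod (Finset.range n) b (fun _ => 1)
    (fun i hi => hb i (Finset.mem_range.1 hi))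
  rwa [Finset.sum_const, Finset.card_range, smul_eq_mul, mul_one] at h

theorem mem_Jc_succ {b gg : ℕ → SS k} {n : ℕ} {f : SS k} :
    f ∈ Jc b gg (n + 1) ↔ ∃ u, ∃ v ∈ Jc b gg n, f = gg n * u + b n * v := by
  rw [Jc]
  constructor
  · intro h
    obtain ⟨y, hy, z, hz, h3⟩ := Submodule.mem_sup.1 h
    obtain ⟨u, rfl⟩ := Ideal.mem_span_singleton'.1 hy
    obtain ⟨v, hv, rfl⟩ := Ideal.mem_span_singleton_mul.1 hz
    exact ⟨u, v, hv, by rw [← h3]; ring⟩
  · rintro ⟨u, v, hv, rfl⟩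
    exact Submodule.add_mem_sup (Ideal.mul_mem_right _ _ (Ideal.mem_span_singleton_self _))
      (Ideal.mem_span_singleton_mul.2 ⟨v, hv, rfl⟩)

theorem al_mem_Jc (b gg : ℕ → SS k) (n : ℕ) : al b n ∈ Jc b gg n := by
  induction n with
  | zero => exact Submodule.mem_top
  | succ n ih =>
    rw [mem_Jc_succ]
    exact ⟨0, al b n, ih, by rw [al_succ]; ring⟩

theorem gg_mem_Jc (b gg : ℕ → SS k) (n : ℕ) : gg n ∈ Jc b gg (n + 1) := by
  rw [mem_Jc_succ]
  exact ⟨1, 0, Submodule.zero_mem _, by ring⟩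

variable {F β : SS k} {b gg : ℕ → SS k} {τ : ℕ}

/-- the residual ideal is a colon ideal -/
theorem Cols.mem_Jc_iff (h : Cols F β b gg τ) : ∀ n ≤ τ, ∀ f, f ∈ Jc b gg n ↔
    f * β ∈ Ideal.span {F} ⊔ Ideal.span {al b n} := by
  intro n
  induction n with
  | zero =>
    intro _ f
    have h1 : al b 0 = 1 := by rw [al, Finset.prod_range_zero]
    rw [h1, Ideal.span_singleton_one, sup_top_eq]
    exact ⟨fun _ => Submodule.mem_top, fun _ => Submodule.mem_top⟩
  | succ n ih =>
    intro hn f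
    have ih' := ih (by omega)
    rw [mem_Jc_succ]
    constructor
    · rintro ⟨u, v, hv, rfl⟩
      obtain ⟨p, q, h1⟩ := mem_sup_span_iff.1 ((ih' v).1 hv)
      obtain ⟨p', q', h2⟩ := mem_sup_span_iff.1 (h.gmul n (by omega))
      rw [mem_sup_span_iff]
      refine ⟨p' * u + b n * p, q' * u + q, ?_⟩
      rw [al_succ] at h2 ⊢
      linear_combination u * h2 + b n * h1
    · intro hf
      obtain ⟨p, q, h1⟩ := mem_sup_span_iff.1 hf
      have h2 : f * β ∈ Ideal.span {F} ⊔ Ideal.span {b n} := by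
        rw [mem_sup_span_iff]
        exact ⟨p, al b n * q, by rw [h1, al_succ]; ring⟩
      obtain ⟨u, v, h3⟩ := mem_sup_span_iff.1 (h.colon n (by omega) f h2)
      refine ⟨u, v, ?_, h3⟩
      rw [ih']
      obtain ⟨p', q', h4⟩ := mem_sup_span_iff.1 (h.gmul n (by omega))
      have h5 : b n ∣ F * (p - p' * u) := by
        refine ⟨v * β - al b n * q + al b n * q' * u, ?_⟩
        rw [h3] at h1
        rw [al_succ] at h1 h4
        linear_combination u * h4 - h1
      obtain ⟨y, hy⟩ := ((h.prime n (by omega)).dvd_or_dvd h5).resolve_left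
        (h.ndvd n (by omega))
      rw [mem_sup_span_iff]
      refine ⟨y, q - q' * u, ?_⟩
      apply mul_left_cancel₀ (h.prime n (by omega)).ne_zero
      rw [h3] at h1
      rw [al_succ] at h1 h4
      linear_combination h1 - u * h4 + F * hy

/-- regular elements modulo the residual ideal -/
theorem Cols.reg (h : Cols F β b gg τ) {v : SS k}
    (hv : ∀ n < τ, Reg v (Ideal.span {gg n} ⊔ Ideal.span {b n})) :
    ∀ n ≤ τ, Reg v (Jc b gg n) := by
  intro n
  induction n with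
  | zero =>
    intro _ f _
    exact Submodule.mem_top
  | succ n ih =>
    intro hn f hf
    have ih' := ih (by omega)
    obtain ⟨u, w, hw, h1⟩ := mem_Jc_succ.1 hf
    have h2 : f * v ∈ Ideal.span {gg n} ⊔ Ideal.span {b n} := by
      rw [mem_sup_span_iff]
      exact ⟨u, w, h1⟩
    obtain ⟨u', f', h3⟩ := mem_sup_span_iff.1 (hv n (by omega) f h2)
    rw [mem_Jc_succ]
    refine ⟨u', f', ?_, h3⟩
    apply ih'
    have h5 : b n ∣ gg n * (u - u' * v) := by
      refine ⟨f' * v - w, ?_⟩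
      rw [h3] at h1
      linear_combination -h1
    obtain ⟨y, hy⟩ := ((h.prime n (by omega)).dvd_or_dvd h5).resolve_left
      (h.ndvd' n (by omega))
    have h6 : f' * v = gg n * y + w := by
      apply mul_left_cancel₀ (h.prime n (by omega)).ne_zero
      rw [h3] at h1
      linear_combination h1 + gg n * hy
    rw [h6]
    exact Ideal.add_mem _ (Ideal.mul_mem_right _ _ (h.mem n (by omega))) hw

/-- powers of the irrelevant ideal -/
theorem Jc_le {N : Ideal (SS k)} (hb : ∀ n < τ, b n ∈ N)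
    (hg : ∀ n < τ, gg n ∈ Ideal.span {F} ⊔ N ^ (n + 1)) :
    ∀ n ≤ τ, Jc b gg n ≤ Ideal.span {F} ⊔ N ^ n := by
  intro n
  induction n with
  | zero =>
    intro _
    rw [pow_zero, Ideal.one_eq_top, sup_top_eq]
    exact le_top
  | succ n ih =>
    intro hn f hf
    obtain ⟨u, w, hw, rfl⟩ := mem_Jc_succ.1 hf
    refine Ideal.add_mem _ (Ideal.mul_mem_right _ _ (hg n (by omega))) ?_
    obtain ⟨y, hy, z, hz, h3⟩ := Submodule.mem_sup.1 (ih (by omega) hw)
    rw [← h3, mul_add]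
    refine Submodule.add_mem_sup (Ideal.mul_mem_left _ _ hy) ?_
    rw [pow_succ']
    exact Ideal.mul_mem_mul (hb n (by omega)) hz

end

end Pool.Agent.Helper95.ME
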