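import Pool.Agent.Helper95.ME.Hilb

/-!
Depth of the coordinate rings of the curves of `Kern`.
-/

set_option autoImplicit false

namespace Pool.Agent.Helper95.ME

open MvPolynomial Module Pool.Agent.Helper95.MI

section

variable {k : Type*} [Field k]

theorem eq_iot_of_natDegree {f : RR k} (hf : (ee f).natDegree ≤ 0) : f = iot ((ee f).coeff 0) := by
  apply ee.injective
  rw [ee_iot]
  exact Polynomial.eq_C_of_natDegree_le_zero hf

namespace CD

variable (D : CD k)

theorem red_u {l : SS k} (hl : ∀ a, a * l ∈ D.J → a ∈ D.J) {f u : RR k} {n : ℕ}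
    (hf : (ee f).natDegree ≤ n) (h : f - iot l * u ∈ D.I) :
    ∃ u', (ee u').natDegree ≤ n ∧ f - iot l * u' ∈ D.I := by
  have key : ∀ m : ℕ, ∀ u : RR k, (ee u).natDegree ≤ m → f - iot l * u ∈ D.I →
      ∃ u', (ee u').natDegree ≤ n ∧ f - iot l * u' ∈ D.I := by
    intro m
    induction m with
    | zero =>
      intro u hu hI
      exact ⟨u, by omega, hI⟩
    | succ m ih =>
      intro u hu hI
      rcases le_or_gt (m + 1) n with hmn | hmn
      · exact ⟨u, by omega, hI⟩
      · have h1 : (ee (f - iot l * u)).natDegree ≤ m + 1 := by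
          rw [map_sub, map_mul, ee_iot]
          refine (Polynomial.natDegree_sub_le _ _).trans (max_le (by omega) ?_)
          exact (Polynomial.natDegree_C_mul_le _ _).trans hu
        have h2 := D.coeff_mem (D.mem_I.1 hI) h1 (by omega)
        rw [map_sub, map_mul, ee_iot, Polynomial.coeff_sub, Polynomial.coeff_C_mul,
          Polynomial.coeff_eq_zero_of_natDegree_lt (by omega), zero_sub, neg_mem_iff, mul_comm] at h2
        have h3 := hl _ h2
        obtain ⟨c, hc⟩ := D.exists_c h3
        set a := (ee u).coeff (m + 1) with ha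
        refine ih (u - (X 0 * iot a - iot c) * X 0 ^ m) ?_ ?_
        · rw [map_sub, map_mul, map_sub, map_mul, map_pow, ee_w, ee_iot, ee_iot,
            mul_comm Polynomial.X]
          exact red hu ha.symm
        · have : f - iot l * (u - (X 0 * iot a - iot c) * X 0 ^ m) =
              (f - iot l * u) + (X 0 * iot a - iot c) * (iot l * X 0 ^ m) := by ring
          rw [this]
          exact D.I.add_mem hI (D.I.mul_mem_right _ (D.lin_mem_I.2 hc))
  exact key _ u le_rfl h

theorem mem_sup_iff {l : SS k} {f : RR k} :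
    f ∈ D.I ⊔ Ideal.span {iot l} ↔ ∃ u, f - iot l * u ∈ D.I := by
  constructor
  · intro h
    obtain ⟨i, hi, z, hz, h3⟩ := Submodule.mem_sup.1 h
    obtain ⟨y, rfl⟩ := Ideal.mem_span_singleton'.1 hz
    refine ⟨y, ?_⟩
    rw [← h3]
    have : i + y * iot l - iot l * y = i := by ring
    rwa [this]
  · rintro ⟨u, hu⟩
    have : f = (f - iot l * u) + iot l * u := by ring
    rw [this]
    exact Submodule.add_mem_sup hu (Ideal.mul_mem_right _ _ (Ideal.mem_span_singleton_self _))

theorem noSocle {l : SS k} (hl : ∀ a, a * l ∈ D.J → a ∈ D.J)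
    (hz : ∀ a, a * X 2 ∈ Ideal.span {D.F} ⊔ Ideal.span {l} →
      a ∈ Ideal.span {D.F} ⊔ Ideal.span {l}) : NoSocle (D.I ⊔ Ideal.span {iot l}) := by
  have hX : (X 3 : RR k) = iot (X 2) := by
    rw [iot, rename_X]
    rfl
  have key : ∀ n : ℕ, ∀ x : RR k, (ee x).natDegree ≤ n → X 0 * x ∈ D.I ⊔ Ideal.span {iot l} →
      X 3 * x ∈ D.I ⊔ Ideal.span {iot l} → x ∈ D.I ⊔ Ideal.span {iot l} := by
    intro n
    induction n with
    | zero =>
      intro x hx h0 h3
      have h1 := eq_iot_of_natDegree hx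
      set a := (ee x).coeff 0 with ha
      rw [h1, hX, ← map_mul, mem_sup_iff] at h3
      obtain ⟨u, hu⟩ := h3
      obtain ⟨u', hu', h4⟩ := D.red_u hl (n := 0) (by rw [ee_iot, Polynomial.natDegree_C]) hu
      have h5 := eq_iot_of_natDegree hu'
      rw [h5, ← map_mul, ← map_sub, iot_mem_I] at h4
      have h6 : a * X 2 ∈ Ideal.span {D.F} ⊔ Ideal.span {l} := by
        have : a * X 2 = (X 2 * a - l * (ee u').coeff 0) + l * (ee u').coeff 0 := by ring
        rw [this]
        exact Submodule.add_mem_sup (Ideal.mem_span_singleton.2 h4)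
          (Ideal.mul_mem_right _ _ (Ideal.mem_span_singleton_self _))
      have h7 := hz _ h6
      rw [h1]
      have h8 : (Ideal.span {D.F} ⊔ Ideal.span {l} : Ideal (SS k)) ≤
          (D.I ⊔ Ideal.span {iot l}).comap (RingHomClass.toRingHom (iot (k := k))) := by
        refine sup_le ?_ ?_
        · rw [Ideal.span_singleton_le_iff_mem, Ideal.mem_comap]
          exact Ideal.mem_sup_left D.F_mem_I
        · rw [Ideal.span_singleton_le_iff_mem, Ideal.mem_comap]
          exact Ideal.mem_sup_right (Ideal.mem_span_singleton_self _)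
      exact h8 h7
    | succ n ih =>
      intro x hx h0 h3
      obtain ⟨u, hu⟩ := D.mem_sup_iff.1 h0
      have h1 : (ee (X 0 * x)).natDegree ≤ n + 2 := by
        rw [map_mul, ee_w]
        refine (Polynomial.natDegree_mul_le).trans ?_
        have := Polynomial.natDegree_X_le (R := SS k)
        omega
      obtain ⟨u', hu', h4⟩ := D.red_u hl h1 hu
      have h5 : (ee (X 0 * x - iot l * u')).natDegree ≤ n + 2 := by
        rw [map_sub, map_mul (ee (k := k)) (iot l), ee_iot]
        refine (Polynomial.natDegree_sub_le _ _).trans (max_le h1 ?_)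
        exact (Polynomial.natDegree_C_mul_le _ _).trans hu'
      have h6 := D.coeff_mem (D.mem_I.1 h4) h5 (by omega)
      rw [map_sub, map_mul, map_mul, ee_iot, ee_w, Polynomial.coeff_sub, Polynomial.coeff_C_mul,
        Polynomial.coeff_X_mul] at h6
      obtain ⟨c, hc⟩ := D.exists_c h6
      set a := (ee x).coeff (n + 1) with ha
      set b := (ee u').coeff (n + 2) with hb
      have h7 : (X 0 * iot a - iot c) * X 0 ^ n ∈ D.I ⊔ Ideal.span {iot l} := by
        have : (X 0 * iot a - iot c) * X 0 ^ n =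
          (X 0 * iot (a - l * b) - iot c) * X 0 ^ n + iot l * (iot b * X 0 ^ (n + 1)) := by
          rw [map_sub, map_mul]
          ring
        rw [this]
        exact Submodule.add_mem_sup (D.I.mul_mem_right _ (D.lin_mem_I.2 hc))
          (Ideal.mul_mem_right _ _ (Ideal.mem_span_singleton_self _))
      have h8 : x = (x - (X 0 * iot a - iot c) * X 0 ^ n) + (X 0 * iot a - iot c) * X 0 ^ n := by
        ring
      rw [h8]
      refine Ideal.add_mem _ (ih _ ?_ ?_ ?_) h7
      · rw [map_sub, map_mul, map_sub, map_mul, map_pow, ee_w, ee_iot, ee_iot,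
          mul_comm Polynomial.X]
        exact red hx ha.symm
      · rw [mul_sub]
        exact Ideal.sub_mem _ h0 (Ideal.mul_mem_left _ _ h7)
      · rw [mul_sub]
        exact Ideal.sub_mem _ h3 (Ideal.mul_mem_left _ _ h7)
  intro x hx
  exact key _ x le_rfl (hx 0) (hx 3)

theorem regular [Infinite k] {l : SS k} (hl1 : l.IsHomogeneous 1) (hFl : ¬ D.F ∣ l)
    (hl : ∀ a, a * l ∈ D.J → a ∈ D.J)
    (hz : ∀ a, a * X 2 ∈ Ideal.span {D.F} ⊔ Ideal.span {l} →
      a ∈ Ideal.span {D.F} ⊔ Ideal.span {l}) :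
    ∃ f g : RR k, (∃ a, 0 < a ∧ f.IsHomogeneous a) ∧
      (∃ b, 0 < b ∧ g.IsHomogeneous b) ∧ (∀ x, f * x ∈ D.I → x ∈ D.I) ∧
      ∀ x, g * x ∈ D.I ⊔ Ideal.span {f} → x ∈ D.I ⊔ Ideal.span {f} := by
  obtain ⟨M, hM, hM0, hMr⟩ := exists_regular (D.noSocle hl hz)
  refine ⟨iot l, M, ⟨1, one_pos, iot_hom hl1⟩, ⟨1, one_pos, hM⟩, ?_, hMr⟩
  intro x hx
  exact (D.prime_I.mem_or_mem hx).resolve_left fun h => hFl (D.iot_mem_I.1 h)

end CD

end

end Pool.Agent.Helper95.ME
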