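import Pool.Agent.Helper95.MI.Bez

/-!
# The Hilbert function of the intersection of two curves is eventually constant
-/

set_option autoImplicit false

namespace Pool.Agent.Helper95.ME

open Pool.Agent.Helper95.MI MvPolynomial Module

theorem sum_sh_eq {h : ℕ → ℕ} {N₀ : ℕ} (hN : ∀ n ≥ N₀, h n = 0) (m : ℕ) {N : ℕ}
    (hNm : N₀ + m ≤ N) : ∑ n ∈ Finset.range N, sh h m n = m * deg h := by
  induction m with
  | zero => simp [sh_zero]
  | succ m ih =>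
    have h1 : ∑ n ∈ Finset.range N, (if m ≤ n then h (n - m) else 0) = deg h := by
      obtain ⟨M, rfl⟩ : ∃ M, N = m + M := ⟨N - m, by omega⟩
      rw [Finset.sum_range_add]
      have h2 : ∑ x ∈ Finset.range m, (if m ≤ x then h (x - m) else 0) = 0 := by
        apply Finset.sum_eq_zero
        intro x hx
        rw [Finset.mem_range] at hx
        rw [if_neg (by omega)]
      rw [h2, zero_add, deg_eq (N := M) (fun n hn => hN n (by omega))]
      refine Finset.sum_congr rfl fun x _ => ?_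
      rw [if_pos (by omega)]
      congr 1
      omega
    simp only [sh_succ]
    rw [Finset.sum_add_distrib, ih (by omega), h1]
    ring

section
variable {k : Type*} [Field k]

theorem hilbZ_sup_span {I : Ideal (RR k)} {h : ℕ → ℕ} (hI : IsCurve I h)
    {G : RR k} {m : ℕ} (hG : G.IsHomogeneous m) (hG0 : G ∉ I) (n : ℤ) :
    hilbZ (I ⊔ Ideal.span {G}) n = hilbZ I n - hilbZ I (n - m) := by
  have h0 : G ≠ 0 := by
    rintro rfl
    exact hG0 I.zero_mem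
  rw [hilbZ_eq, hilbZ_eq, hilbZ_eq, pd_sup_span hI.Hom hG h0 (prime_reg hI.prime hG0)]
  ring

theorem hilb_sup_span [Infinite k] {I : Ideal (RR k)} {h : ℕ → ℕ} (hI : IsCurve I h)
    {G : RR k} {m : ℕ} (hG : G.IsHomogeneous m) (hG0 : G ∉ I) :
    ∃ n₀, ∀ n ≥ n₀, hilb (I ⊔ Ideal.span {G}) n = m * deg h := by
  obtain ⟨N₀, hN₀⟩ := fin_zero hI.finite
  refine ⟨N₀ + m, fun n hn => ?_⟩
  have h1 := hilbZ_sum (I ⊔ Ideal.span {G}) n
  have h2 : ∀ i ∈ Finset.range (n + 1), hilbZ (I ⊔ Ideal.span {G}) i -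
      hilbZ (I ⊔ Ideal.span {G}) ((i : ℤ) - 1) = (sh h m i : ℤ) := by
    intro i _
    rw [hilbZ_sup_span hI hG hG0, hilbZ_sup_span hI hG hG0, ← tele hI m i]
    have h3 : (i : ℤ) - 1 - m = i - m - 1 := by ring
    rw [h3]
    ring
  rw [Finset.sum_congr rfl h2] at h1
  have h3 := sum_sh_eq hN₀ m (N := n + 1) (by omega)
  have h4 : ((∑ i ∈ Finset.range (n + 1), sh h m i : ℕ) : ℤ) = ((m * deg h : ℕ) : ℤ) := by
    rw [h3]
  push_cast at h4
  rw [h4] at h1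
  rw [hilbZ, if_pos (Int.natCast_nonneg _), Int.toNat_natCast] at h1
  exact_mod_cast h1.symm

/-- a form of a homogeneous ideal outside an ideal -/
theorem exists_form {I J : Ideal (RR k)} (hJ : Hom J) (hn : ¬ J ≤ I) :
    ∃ (G : RR k) (m : ℕ), G.IsHomogeneous m ∧ G ∈ J ∧ G ∉ I := by
  obtain ⟨x, hx, hxI⟩ := SetLike.not_le_iff_exists.1 hn
  by_contra hcon
  push Not at hcon
  apply hxI
  rw [← sum_homogeneousComponent x]
  exact Ideal.sum_mem _ fun i _ => hcon _ i (homogeneousComponent_isHomogeneous i x) (hJ x hx i)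

theorem exists_inter_aux [Infinite k] {I₁ I₂ : Ideal (RR k)} {h₁ : ℕ → ℕ}
    (hI₁ : IsCurve I₁ h₁) (hI₂ : Hom I₂) (hn : ¬ I₂ ≤ I₁) : ∃ l, InterLength I₁ I₂ l := by
  obtain ⟨G, m, hG, hG2, hG1⟩ := exists_form hI₂ hn
  obtain ⟨n₀, hn₀⟩ := hilb_sup_span hI₁ hG hG1
  obtain ⟨L, hL, hL0, hLr⟩ := exists_regular (noSocle_sup hI₁ hG1)
  have hZJ : I₁ ⊔ Ideal.span {G} ≤ I₁ ⊔ I₂ :=
    sup_le_sup le_rfl ((Ideal.span_singleton_le_iff_mem I₂).2 hG2)
  -- the Hilbert function of `J` does not increase from `n₀` on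
  have hstep : ∀ n ≥ n₀, hilb (I₁ ⊔ I₂) (n + 1) ≤ hilb (I₁ ⊔ I₂) n := by
    intro n hn
    have e1 := pd_growth hZJ hL hL0 hLr ((n + 1 : ℕ) : ℤ)
    have e2 : ((n + 1 : ℕ) : ℤ) - 1 = (n : ℤ) := by
      push_cast
      ring
    rw [e2] at e1
    have e3 := hilb_eq (I₁ ⊔ Ideal.span {G}) n
    have e4 := hilb_eq (I₁ ⊔ Ideal.span {G}) (n + 1)
    have e5 := hilb_eq (I₁ ⊔ I₂) n
    have e6 := hilb_eq (I₁ ⊔ I₂) (n + 1)
    rw [hn₀ n hn] at e3
    rw [hn₀ (n + 1) (by omega)] at e4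
    simp only [pd_nat] at e1
    have e7 : (hilb (I₁ ⊔ I₂) (n + 1) : ℤ) ≤ hilb (I₁ ⊔ I₂) n := by
      rw [e5, e6]
      linarith
    exact_mod_cast e7
  have hanti : ∀ n ≥ n₀, ∀ i, hilb (I₁ ⊔ I₂) (n + i) ≤ hilb (I₁ ⊔ I₂) n := by
    intro n hn i
    induction i with
    | zero => exact le_rfl
    | succ i ih => exact (hstep (n + i) (by omega)).trans ih
  have hne : {l | ∃ n ≥ n₀, hilb (I₁ ⊔ I₂) n = l}.Nonempty := ⟨_, n₀, le_rfl, rfl⟩
  obtain ⟨n₁, hn₁, hmin⟩ := Nat.sInf_mem hne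
  refine ⟨hilb (I₁ ⊔ I₂) n₁, n₁, fun n hn => ?_⟩
  apply le_antisymm
  · obtain ⟨i, rfl⟩ := Nat.exists_eq_add_of_le hn
    exact hanti n₁ hn₁ i
  · rw [hmin]
    exact Nat.sInf_le ⟨n, by omega, rfl⟩

theorem exists_interLength [Infinite k] {I₁ I₂ : Ideal (RR k)} {h₁ h₂ : ℕ → ℕ}
    (hI₁ : IsCurve I₁ h₁) (hI₂ : IsCurve I₂ h₂) (hne : I₁ ≠ I₂) :
    ∃ l, InterLength I₁ I₂ l := by
  by_cases h : I₂ ≤ I₁
  · have h' : ¬ I₁ ≤ I₂ := fun h' => hne (le_antisymm h' h)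
    obtain ⟨l, hl⟩ := exists_inter_aux hI₂ hI₁.Hom h'
    exact ⟨l, hl.symm⟩
  · exact exists_inter_aux hI₁ hI₂.Hom h

end

end Pool.Agent.Helper95.ME
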