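import Pool.Agent.Helper95.ME.Vert
import Pool.Agent.Helper59.ME.Vertex
import Pool.Agent.Helper65.ME.Shift
import Pool.Agent.Helper84.ME.Num

/-!
Existence of pairs of curves with many common points.
-/

set_option autoImplicit false

namespace Pool.Agent.Helper95.ME

open MvPolynomial Module Pool.Agent.Helper95.MI

section

variable {k : Type*} [Field k]

/-- the general construction -/
noncomputable def mkT (g τ dd dE : ℕ) (lam c : ℕ → ℕ) (r q qF : ℕ → k) (qs σ : k) (E β1 : SS k)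
    (hg : 1 ≤ g) (hYD : ∀ n j, j < c n ↔ n < lam j) (hlam : lam 0 ≤ τ)
    (hcg : ∀ n, 0 < c n → c n + n + 1 ≤ g) (hr : Function.Injective r)
    (hq : ∀ m n, m < lam 0 → m < n → n < τ → q m ≠ q n) (hqF : ∀ n < lam 0, qF n = q n)
    (hqs : ∀ n < τ, q n ≠ qs) (hE : E.IsHomogeneous dE)
    (hEreg : ∀ n < τ, Reg E (Ideal.span {Fs g r qF σ} ⊔ Ideal.span {colF (q n)}))
    (hβ1 : β1.IsHomogeneous (τ + 1 - lam 0)) (hD : dd + dE = τ + 1)
    (hjD : ∀ j ≤ c 0, j + lam j ≤ dd) : Setup k where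
  g := g
  τ := τ
  dd := dd
  dE := dE
  r := fun i => r i + σ
  q := q
  qs := qs
  lam := lam
  c := c
  F := Fs g r qF σ
  F1 := X 2 * ∏ n ∈ Finset.Ico (lam 0) (g - 1), colF (qF n)
  E := E
  β1 := β1
  hYD := hYD
  hlam := hlam
  hcg := hcg
  hr := fun _ _ h => hr (add_right_cancel h)
  hq := hq
  hqs := hqs
  hF := Fs_prime hg r qF σ
  hFg := Fs_hom hg r qF σ
  hFdec := by
    have h1 : lam 0 ≤ g - 1 := by
      rcases Nat.eq_zero_or_pos (lam 0) with h | h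
      · omega
      · have h2 := hcg (lam 0 - 1) ((hYD _ 0).2 (by omega))
        have h3 : 0 < c (lam 0 - 1) := (hYD _ 0).2 (by omega)
        omega
    rw [Fs_dec h1]
    congr 2
    unfold al
    refine Finset.prod_congr rfl fun n hn => ?_
    change colF (qF n) = colF (q n)
    rw [hqF n (Finset.mem_range.1 hn)]
  hev := by
    rw [ev1_Fs]
    exact one_ne_zero
  hE := hE
  hEreg := hEreg
  hβ1 := hβ1
  hD := hD
  hjD := hjD

/-- the simple construction -/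
noncomputable def mk1 (g τ : ℕ) (lam c : ℕ → ℕ) (r q : ℕ → k) (qs : k)
    (hg : 1 ≤ g) (hYD : ∀ n j, j < c n ↔ n < lam j) (hlam : lam 0 ≤ τ)
    (hcg : ∀ n, 0 < c n → c n + n + 1 ≤ g) (hr : Function.Injective r)
    (hq : Function.Injective q) (hqs : ∀ n, q n ≠ qs)
    (hjD : ∀ j ≤ c 0, j + lam j ≤ τ + 1) : Setup k :=
  mkT g τ (τ + 1) 0 lam c r q q qs 0 1 0 hg hYD hlam hcg hr
    (fun _ _ _ h _ e => absurd (hq e) (by omega)) (fun _ _ => rfl) (fun n _ => hqs n)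
    (isHomogeneous_one _ _) (fun _ _ => Reg.one) (isHomogeneous_zero _ _ _) rfl hjD

/-- evaluation at the point `(0:1:0)` -/
noncomputable def ev2 : SS k →+* k := eval (fun i => if i = 1 then 1 else 0)

theorem ev2_row (r : k) : ev2 (rowF r) = 0 := by
  simp [ev2, rowF]

theorem ev2_col (q : k) : ev2 (colF q) = 1 := by
  simp [ev2, colF]

theorem ev2_z : ev2 (X 2 : SS k) = 0 := by
  simp [ev2]

theorem ev2_al (q : ℕ → k) (n : ℕ) : ev2 (al (fun i => colF (q i)) n) = 1 := by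
  rw [al, map_prod]
  exact Finset.prod_eq_one fun i _ => ev2_col _

theorem ev2_Fs {g : ℕ} (hg : 1 ≤ g) (r q : ℕ → k) (σ : k) : ev2 (Fs g r q σ) = 0 := by
  rw [Fs, map_sub, map_mul, ev2_z, zero_mul, sub_zero, map_prod]
  exact Finset.prod_eq_zero (Finset.mem_range.2 (by omega : 0 < g)) (ev2_row _)

theorem ev2_bet {T : Setup k} (hE : T.E = 1) (hβ : T.β1 = 0) (a : k) : ev2 (T.bet a) = a := by
  have hal : ∀ n, ev2 (al T.b n) = 1 := fun n => ev2_al T.q n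
  rw [Setup.bet, hβ, zero_mul, zero_add, map_sum, Finset.sum_range_succ', Finset.sum_eq_zero]
  · rw [zero_add, Setup.tm, hE]
    have h1 : Pr T.r 0 0 = 1 := by rw [Pr, Finset.Ico_self, Finset.prod_empty]
    have h2 : ev2 (algebraMap k (SS k) a) = a := by
      change ev2 (C a) = a
      simp [ev2]
    rw [h1, one_mul, one_mul, map_mul, map_mul, map_pow, map_pow, hal, Setup.eta, ev2_col, h2]
    ring
  · intro j hj
    rw [Setup.tm, hE]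
    have h1 : ev2 (Pr T.r 0 (j + 1)) = 0 := by
      rw [Pr, map_prod]
      exact Finset.prod_eq_zero (Finset.mem_Ico.2 ⟨le_rfl, by omega⟩ : 0 ∈ Finset.Ico 0 (j + 1))
        (ev2_row _)
    rw [one_mul, map_mul, map_mul, map_mul, h1, zero_mul, mul_zero, mul_zero]

/-- the second linear relation does not hold on the first curve -/
theorem not_mem_aux (D : CD k) {b : ℕ → SS k} {τ₁ τ₂ : ℕ} {β₂ : SS k} (hα : D.α = al b τ₁)
    (hb : ∀ n, ev2 (b n) = 1) (hF : ev2 D.F = 0) (hbd : ∀ n, ¬ D.F ∣ b n)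
    (hne : ev2 D.β ≠ ev2 β₂) : X 0 * iot (al b τ₂) - iot β₂ ∉ D.I := by
  intro h
  rw [D.lin_mem_I] at h
  have h1 : D.F ∣ al b τ₂ * D.β - al b τ₁ * β₂ := by
    rw [← D.phi_eq_zero, map_sub, map_mul, map_mul, ← D.alpha_om, ← h, ← hα]
    ring
  have hal : ∀ n, ¬ D.F ∣ al b n := by
    intro n hd
    obtain ⟨m, -, hm⟩ := D.hF.exists_mem_finset_dvd hd
    exact hbd m hm
  have key : ∀ m n : ℕ, m ≤ n → ∀ x y : SS k, D.F ∣ al b n * x - al b m * y → ev2 x = ev2 y := by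
    intro m n hmn x y hd
    have h2 : al b n = al b m * ∏ i ∈ Finset.Ico m n, b i := by
      unfold al
      rw [Finset.prod_range_mul_prod_Ico _ hmn]
    have h3 : al b n * x - al b m * y = al b m * ((∏ i ∈ Finset.Ico m n, b i) * x - y) := by
      rw [h2]
      ring
    rw [h3] at hd
    obtain ⟨u, hu⟩ := (D.hF.dvd_or_dvd hd).resolve_left (hal m)
    have h4 := congrArg ev2 hu
    rw [map_sub, map_mul, map_mul, hF, zero_mul, map_prod, Finset.prod_eq_one fun i _ => hb i,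
      one_mul, sub_eq_zero] at h4
    exact h4
  rcases le_total τ₁ τ₂ with h2 | h2
  · exact hne (key _ _ h2 _ _ h1)
  · have h3 : D.F ∣ al b τ₁ * β₂ - al b τ₂ * D.β := by
      rw [← dvd_neg, neg_sub]
      exact h1
    exact hne (key _ _ h2 _ _ h3).symm

/-- combinatorial data of an h-vector -/
structure YD (h : ℕ → ℕ) (g τ m : ℕ) (lam c : ℕ → ℕ) : Prop where
  yd : ∀ n j, j < c n ↔ n < lam j
  cg : ∀ n, 0 < c n → c n + n + 1 ≤ m
  jc : ∀ j ≤ c 0, j + lam j ≤ c 0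
  hh : ∀ n, hg g τ c n = h n
  g1 : 1 ≤ g
  mg : m ≤ g
  mt : m ≤ τ + 1
  m1 : 1 ≤ m
  fin : (Function.support h).Finite

theorem YD.lam0 {h : ℕ → ℕ} {g τ m : ℕ} {lam c : ℕ → ℕ} (Y : YD h g τ m lam c) :
    lam 0 + 1 ≤ m := by
  have h1 := Y.m1
  rcases Nat.eq_zero_or_pos (lam 0) with h | h
  · omega
  · have h3 : 0 < c (lam 0 - 1) := (Y.yd _ 0).2 (by omega)
    have h2 := Y.cg (lam 0 - 1) h3
    omega

theorem YD.c0 {h : ℕ → ℕ} {g τ m : ℕ} {lam c : ℕ → ℕ} (Y : YD h g τ m lam c) :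
    c 0 + 1 ≤ m := by
  have h1 := Y.m1
  rcases Nat.eq_zero_or_pos (c 0) with h | h
  · omega
  · have h2 := Y.cg 0 h
    omega

section Sequences

variable (θ : ℕ → k)

/-- the single curve -/
noncomputable def YD.setup {h : ℕ → ℕ} {g τ m : ℕ} {lam c : ℕ → ℕ} (Y : YD h g τ m lam c)
    (hθ : Function.Injective θ) : Setup k :=
  mk1 g τ lam c θ (fun n => θ (2 * n + 1)) (θ 0) Y.g1 Y.yd
    (by have := Y.lam0; have := Y.mt; omega)
    (fun n hn => (Y.cg n hn).trans Y.mg) hθ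
    (fun a b e => by have := hθ e; omega) (fun n e => by have := hθ e; omega)
    (fun j hj => by have := Y.jc j hj; have := Y.c0; have := Y.mt; omega)

end Sequences

variable [Infinite k]

theorem exists_good (T : Setup k) (s : Set k) (hs : s.Finite) : ∃ a, T.Good a ∧ a ∉ s := by
  obtain ⟨a, ha⟩ := (T.finite_not_good.union hs).infinite_compl.nonempty
  rw [Set.mem_compl_iff, Set.mem_union, not_or] at ha
  exact ⟨a, not_not.1 ha.1, ha.2⟩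

/-- two curves over the same plane curve, the second one a complete intersection -/
theorem exists_ci {h₁ h₂ : ℕ → ℕ} {g τ₁ τ₂ m₁ m₂ : ℕ} {lam₁ c₁ lam₂ c₂ : ℕ → ℕ}
    (Y₁ : YD h₁ g τ₁ m₁ lam₁ c₁) (Y₂ : YD h₂ g τ₂ m₂ lam₂ c₂) (h0 : lam₂ 0 = 0) :
    ∃ I₁ I₂ : Ideal (RR k), IsCurve I₁ h₁ ∧ IsCurve I₂ h₂ ∧
      InterLength I₁ I₂ ((τ₂ + 1) * deg h₁) := by
  obtain ⟨θ, hθ⟩ : ∃ θ : ℕ → k, Function.Injective θ := ⟨_, (Infinite.natEmbedding k).injective⟩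
  obtain ⟨a₁, ha₁, -⟩ := exists_good (Y₁.setup θ hθ) ∅ Set.finite_empty
  obtain ⟨a₂, ha₂, hne⟩ := exists_good (Y₂.setup θ hθ) {a₁} (Set.finite_singleton _)
  set T₁ := Y₁.setup θ hθ with hT₁
  set T₂ := Y₂.setup θ hθ with hT₂
  have hC₁ : IsCurve (T₁.cd ha₁).I h₁ := T₁.isCurve ha₁ Y₁.hh Y₁.fin
  have hC₂ : IsCurve (T₂.cd ha₂).I h₂ := T₂.isCurve ha₂ Y₂.hh Y₂.fin
  refine ⟨_, _, hC₁, hC₂, ?_⟩
  have h1 := T₂.ci_le ha₂ (T₁.cd ha₁) h0 rfl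
  set G : RR k := X 0 * iot (al T₂.b T₂.τ) - iot (T₂.bet a₂) with hG
  have h2 : G ∈ (T₂.cd ha₂).I := (T₂.cd ha₂).G_mem_I
  have h3 : (T₁.cd ha₁).I ⊔ (T₂.cd ha₂).I = (T₁.cd ha₁).I ⊔ Ideal.span {G} := by
    apply le_antisymm
    · exact sup_le le_sup_left h1
    · exact sup_le_sup_left ((Ideal.span_singleton_le_iff_mem _).2 h2) _
  have h4 : G.IsHomogeneous (τ₂ + 1) := by
    refine IsHomogeneous.sub ?_ (iot_hom (T₂.bet_hom a₂))
    rw [add_comm]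
    exact (isHomogeneous_X k 0).mul (iot_hom T₂.al_hom')
  have h5 : G ∉ (T₁.cd ha₁).I := by
    refine not_mem_aux (T₁.cd ha₁) (b := T₁.b) (τ₁ := T₁.τ) (τ₂ := T₂.τ) rfl
      (fun n => ev2_col _) (ev2_Fs Y₁.g1 _ _ _) (fun n => not_dvd_col T₁.hF T₁.hev _) ?_
    have e1 : ev2 (T₁.bet a₁) = a₁ := ev2_bet rfl rfl a₁
    have e2 : ev2 (T₂.bet a₂) = a₂ := ev2_bet rfl rfl a₂
    change ev2 (T₁.bet a₁) ≠ ev2 (T₂.bet a₂)
    rw [e1, e2]
    exact fun e => hne e.symm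
  unfold InterLength
  rw [h3]
  exact hilb_sup_span hC₁ h4 h5

/-- two curves over the same plane curve -/
theorem exists_vertex {h₁ h₂ : ℕ → ℕ} {g τ₁ τ₂ m₁ m₂ : ℕ} {lam₁ c₁ lam₂ c₂ : ℕ → ℕ}
    (Y₁ : YD h₁ g τ₁ m₁ lam₁ c₁) (Y₂ : YD h₂ g τ₂ m₂ lam₂ c₂) (hτ : 1 ≤ τ₂) :
    ∃ I₁ I₂ : Ideal (RR k), ∃ l : ℕ, IsCurve I₁ h₁ ∧ IsCurve I₂ h₂ ∧
      InterLength I₁ I₂ l ∧ AA h₁ g (τ₂ + 1) ≤ l := by
  obtain ⟨θ, hθ⟩ : ∃ θ : ℕ → k, Function.Injective θ := ⟨_, (Infinite.natEmbedding k).injective⟩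
  obtain ⟨a₁, ha₁, -⟩ := exists_good (Y₁.setup θ hθ) ∅ Set.finite_empty
  obtain ⟨a₂, ha₂, hne⟩ := exists_good (Y₂.setup θ hθ) {a₁} (Set.finite_singleton _)
  set T₁ := Y₁.setup θ hθ with hT₁
  set T₂ := Y₂.setup θ hθ with hT₂
  have hC₁ : IsCurve (T₁.cd ha₁).I h₁ := T₁.isCurve ha₁ Y₁.hh Y₁.fin
  have hC₂ : IsCurve (T₂.cd ha₂).I h₂ := T₂.isCurve ha₂ Y₂.hh Y₂.fin
  set G : RR k := X 0 * iot (al T₂.b T₂.τ) - iot (T₂.bet a₂) with hG
  have h2 : G ∈ (T₂.cd ha₂).I := (T₂.cd ha₂).G_mem_I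
  have h5 : G ∉ (T₁.cd ha₁).I := by
    refine not_mem_aux (T₁.cd ha₁) (b := T₁.b) (τ₁ := T₁.τ) (τ₂ := T₂.τ) rfl
      (fun n => ev2_col _) (ev2_Fs Y₁.g1 _ _ _) (fun n => not_dvd_col T₁.hF T₁.hev _) ?_
    have e1 : ev2 (T₁.bet a₁) = a₁ := ev2_bet rfl rfl a₁
    have e2 : ev2 (T₂.bet a₂) = a₂ := ev2_bet rfl rfl a₂
    change ev2 (T₁.bet a₁) ≠ ev2 (T₂.bet a₂)
    rw [e1, e2]
    exact fun e => hne e.symm
  have h6 : (T₁.cd ha₁).I ≠ (T₂.cd ha₂).I := by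
    intro e
    rw [← e] at h2
    exact h5 h2
  obtain ⟨l, hl⟩ := exists_interLength hC₁ hC₂ h6
  refine ⟨_, _, l, hC₁, hC₂, hl, ?_⟩
  have h7 := T₂.vert_le ha₂ (T₁.cd ha₁) rfl
  have h8 := vertex_bound (T₁.cd ha₁) (T₁.hom_I ha₁) (T₁.homJ ha₁) (N := τ₂) hτ h7
  have h9 := vertex_sum (T₁.cd ha₁) (T₁.hom_I ha₁) (T₁.homJ ha₁) (g := g) (h := h₁) T₁.hFg
    hC₁.hvector (t := τ₂ + 1) (by omega)
  obtain ⟨n₀, hn₀⟩ := hl
  have h10 := h8 (max n₀ τ₂) (le_max_right _ _)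
  have h11 : hilbZ ((T₁.cd ha₁).I ⊔ (T₂.cd ha₂).I) ((max n₀ τ₂ : ℕ) : ℤ) = l := by
    rw [hilbZ, if_pos (Int.natCast_nonneg _), Int.toNat_natCast, hn₀ _ (le_max_left _ _)]
  rw [h11] at h10
  unfold AA
  rw [← h9]
  refine le_trans (le_of_eq ?_) h10
  congr 1
  push_cast
  ring

/-- the pair lemma -/
theorem exists_pair {h₁ h₂ : ℕ → ℕ} {g₁ g₂ τ₁ τ₂ m₁ m₂ : ℕ} {lam₁ c₁ lam₂ c₂ : ℕ → ℕ}
    (Y₁ : YD h₁ g₁ τ₁ m₁ lam₁ c₁) (Y₂ : YD h₂ g₂ τ₂ m₂ lam₂ c₂) (hne : g₁ ≠ g₂)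
    (hl : τ₁ + lam₂ 0 ≤ τ₂) (hc : g₁ + c₂ 0 ≤ τ₂ + 1) :
    ∃ I₁ I₂ : Ideal (RR k), IsCurve I₁ h₁ ∧ IsCurve I₂ h₂ ∧
      InterLength I₁ I₂ (g₂ * deg h₁) := by
  obtain ⟨θ, hθ⟩ : ∃ θ : ℕ → k, Function.Injective θ := ⟨_, (Infinite.natEmbedding k).injective⟩
  obtain ⟨a₁, ha₁, -⟩ := exists_good (Y₁.setup θ hθ) ∅ Set.finite_empty
  set T₁ := Y₁.setup θ hθ with hT₁
  have hC₁ : IsCurve (T₁.cd ha₁).I h₁ := T₁.isCurve ha₁ Y₁.hh Y₁.fin
  -- columns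
  set q : ℕ → k := fun n => θ (2 * n + 1) with hq
  set q' : ℕ → k := fun n => θ (2 * n + 2) with hq'
  set qq : ℕ → k := fun n => if n < lam₂ 0 then q' n else q (n - lam₂ 0) with hqq
  -- the shift
  have hfin : (⋃ n ∈ Finset.range τ₂, {σ : k | ¬ Reg (Fs g₂ θ q' σ)
      (Ideal.span {T₁.F} ⊔ Ideal.span {colF (qq n)})}).Finite :=
    Set.Finite.biUnion (Finset.finite_toSet _) fun n _ => finite_shift T₁.hev Y₂.g1 θ q' (qq n)
  obtain ⟨σ, hσ⟩ := hfin.infinite_compl.nonempty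
  have hreg : ∀ n < τ₂, Reg T₁.F (Ideal.span {Fs g₂ θ q' σ} ⊔ Ideal.span {colF (qq n)}) := by
    intro n hn
    refine Reg.swap (prime_col _) (not_col_dvd T₁.hev) ?_
    by_contra hcon
    exact hσ (Set.mem_iUnion₂.2 ⟨n, Finset.mem_range.2 hn, hcon⟩)
  set U : SS k := ∏ i ∈ Finset.Ico τ₁ (τ₂ - lam₂ 0), colF (q i) with hU
  have hUh : U.IsHomogeneous (τ₂ - lam₂ 0 - τ₁) := by
    have h := IsHomogeneous.prod (Finset.Ico τ₁ (τ₂ - lam₂ 0)) (fun n => colF (q n)) (fun _ => 1)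
      (fun i _ => colF_hom _)
    rwa [Finset.sum_const, Nat.card_Ico, smul_eq_mul, mul_one] at h
  have hqqinj : ∀ m n, m < lam₂ 0 → m < n → qq m ≠ qq n := by
    intro m n hm hmn e
    simp only [hqq, hq, hq', if_pos hm] at e
    split_ifs at e
    · have := hθ e
      omega
    · have := hθ e
      omega
  have hqqs : ∀ n, qq n ≠ θ 0 := by
    intro n e
    simp only [hqq, hq, hq'] at e
    split_ifs at e
    · have := hθ e
      omega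
    · have := hθ e
      omega
  have hβh : (T₁.bet a₁ * U).IsHomogeneous (τ₂ + 1 - lam₂ 0) := by
    have h := (T₁.bet_hom a₁).mul hUh
    have e : T₁.τ + 1 + (τ₂ - lam₂ 0 - τ₁) = τ₂ + 1 - lam₂ 0 := by
      change τ₁ + 1 + (τ₂ - lam₂ 0 - τ₁) = τ₂ + 1 - lam₂ 0
      omega
    rwa [e] at h
  set T₂ : Setup k := mkT g₂ τ₂ (τ₂ + 1 - g₁) g₁ lam₂ c₂ θ qq q' (θ 0) σ T₁.F (T₁.bet a₁ * U)
    Y₂.g1 Y₂.yd (by omega) (fun n hn => (Y₂.cg n hn).trans Y₂.mg) hθ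
    (fun m n hm hmn _ => hqqinj m n hm hmn) (fun n hn => by simp only [hqq, if_pos hn])
    (fun n _ => hqqs n) T₁.hFg hreg hβh (by omega)
    (fun j hj => by have := Y₂.jc j hj; omega) with hT₂
  obtain ⟨a₂, ha₂, -⟩ := exists_good T₂ ∅ Set.finite_empty
  have hC₂ : IsCurve (T₂.cd ha₂).I h₂ := T₂.isCurve ha₂ Y₂.hh Y₂.fin
  refine ⟨_, _, hC₁, hC₂, ?_⟩
  have h1 := T₂.pair_le ha₂ (T₁.cd ha₁) (U := U) rfl rfl (by
    change ∏ i ∈ Finset.Ico (lam₂ 0) τ₂, colF (qq i) = al T₁.b T₁.τ * U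
    have e1 : al T₁.b T₁.τ = ∏ i ∈ Finset.range τ₁, colF (q i) := rfl
    rw [e1, hU, Finset.prod_range_mul_prod_Ico _ (by omega), Finset.prod_Ico_eq_prod_range]
    refine Finset.prod_congr rfl fun i _ => ?_
    simp only [hqq]
    rw [if_neg (by omega), Nat.add_sub_cancel_left])
  set G : RR k := iot T₂.F with hG
  have h2 : G ∈ (T₂.cd ha₂).I := (T₂.cd ha₂).F_mem_I
  have h3 : (T₁.cd ha₁).I ⊔ (T₂.cd ha₂).I = (T₁.cd ha₁).I ⊔ Ideal.span {G} := by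
    apply le_antisymm
    · exact sup_le le_sup_left h1
    · exact sup_le_sup_left ((Ideal.span_singleton_le_iff_mem _).2 h2) _
  have h4 : G.IsHomogeneous g₂ := iot_hom T₂.hFg
  have h5 : G ∉ (T₁.cd ha₁).I := by
    intro hG1
    have hd : T₁.F ∣ T₂.F := (T₁.cd ha₁).iot_mem_I.1 hG1
    obtain ⟨u, hu⟩ := hd
    have hu0 : u ≠ 0 := by
      rintro rfl
      rw [mul_zero] at hu
      exact T₂.hF.ne_zero hu
    rcases T₂.hF.irreducible.isUnit_or_isUnit hu with h | h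
    · exact T₁.hF.not_isUnit h
    · have e1 : T₂.F.totalDegree = g₂ := IsHomogeneous.totalDegree T₂.hFg T₂.hF.ne_zero
      have e2 : T₁.F.totalDegree = g₁ := IsHomogeneous.totalDegree T₁.hFg T₁.hF.ne_zero
      rw [hu, totalDegree_mul_of_isDomain T₁.hF.ne_zero hu0, e2,
        (MvPolynomial.isUnit_iff_totalDegree_of_isReduced.mp h).2] at e1
      omega
  unfold InterLength
  rw [h3]
  exact hilb_sup_span hC₁ h4 h5

end

end Pool.Agent.Helper95.ME
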