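import Pool.Agent.Helper95.MI.Bez

/-!
Maximally intersecting pairs: definitions for the second theorem.
-/

set_option autoImplicit false

namespace Pool.Agent.Helper95.ME

open Pool.Agent.Helper95.MI MvPolynomial

/-- A maximally intersecting pair of curves with h-vectors `h₁`, `h₂`: the length `l` of the
intersection is finite and is at least the length of the intersection of any other such pair. -/
structure MaxPair {k : Type*} [Field k] (I₁ I₂ : Ideal (MvPolynomial (Fin 4) k)) (h₁ h₂ : ℕ → ℕ)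
    (l : ℕ) : Prop where
  curve₁ : IsCurve I₁ h₁
  curve₂ : IsCurve I₂ h₂
  length : InterLength I₁ I₂ l
  max : ∀ (J₁ J₂ : Ideal (MvPolynomial (Fin 4) k)) (l' : ℕ), IsCurve J₁ h₁ → IsCurve J₂ h₂ →
    InterLength J₁ J₂ l' → l' ≤ l

/-- The number of nonzero entries of the h-vector. -/
noncomputable def len (h : ℕ → ℕ) : ℕ := (Function.support h).ncard

/-- The number of degrees in which `h` differs from the h-vector of the complete intersection
`s × t` with the same invariants `s`, `t`. It is `0` exactly for complete intersections. -/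
noncomputable def kap (h : ℕ → ℕ) : ℕ := {n | h n ≠ ciH (sI h) (tI h) n}.ncard

/-- `∑_{i < t} (t - i) (h i - [i < s])`, the number of conditions imposed at the common vertex. -/
def ver (h : ℕ → ℕ) (s t : ℕ) : ℤ :=
  ∑ i ∈ Finset.range t, ((t : ℤ) - i) * ((h i : ℤ) - if i < s then 1 else 0)

/-- The pairs of h-vectors to which the theorem applies (up to exchanging the two). -/
def Covered (h₁ h₂ : ℕ → ℕ) : Prop :=
  (sI h₁ = sI h₂ ∧ (kap h₂ = 0 ∨ ((sI h₁ * deg h₁ : ℕ) : ℤ) < ver h₁ (sI h₁) (tI h₂) ∨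
    (3 * sI h₁ < tI h₁ ∧ tI h₁ ≤ tI h₂) ∨ len h₁ + sI h₁ + 4 ≤ tI h₂)) ∨
  (sI h₁ ≠ sI h₂ ∧ tI h₂ ≤ m0 h₁ h₂ ∧ tI h₁ + sI h₂ ≤ len h₂ + 1 ∧ sI h₁ + kap h₂ ≤ tI h₂) ∨
  (sI h₁ < sI h₂ ∧ tI h₁ + tI h₂ ≤ len h₂ + 1 ∧ sI h₁ + kap h₂ ≤ sI h₂)

end Pool.Agent.Helper95.ME
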