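import Pool.Agent.Helper95.ME.Exist
import Pool.Agent.Helper95.ME.Stat

/-!
The theorem on maximally intersecting pairs.
-/

set_option autoImplicit false

namespace Pool.Agent.Helper95.ME

open MvPolynomial Module Pool.Agent.Helper95.MI

section

variable {k : Type*} [Field k]

theorem hvec_dec {I : Ideal (RR k)} {h : ℕ → ℕ} (hI : IsCurve I h) (hd : DecType h) (n : ℕ)
    (hn : tI h ≤ n) : h (n + 1) < h n ∨ h n = 0 := by
  have hs := sI_pos hI
  have ht := tI_mem hI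
  have hprev : h (tI h - 1) = sI h := by
    rcases eq_or_lt_of_le ht.1 with h0 | h0
    · rw [← h0, h_lt_s hI (by omega)]
      omega
    · exact h_lt_t hI (by omega) (by omega)
  have hdrop : h (tI h - 1 + 1) < h (tI h - 1) := by
    rw [hprev, show tI h - 1 + 1 = tI h by omega]
    exact ht.2
  exact hd _ hdrop n (by omega)

/-- combinatorial data of an h-vector, in both forms -/
theorem exists_YD [Infinite k] {I : Ideal (RR k)} {h : ℕ → ℕ} (hI : IsCurve I h) (hd : DecType h) :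
    ∃ lam c : ℕ → ℕ, YD h (sI h) (tI h - 1) (sI h) lam c ∧ YD h (tI h) (sI h - 1) (sI h) lam c ∧
      lam 0 + len h = sI h + tI h - 1 ∧ c 0 = kap h := by
  have hs := sI_pos hI
  have ht := tI_mem hI
  obtain ⟨lam, c, e1, e2, e3, e4, e5, e6, e7⟩ := comb hs ht.1 (fun n hn => h_lt_s hI hn)
    (fun n h1 h2 => h_lt_t hI h1 h2) ht.2 (fun n hn => hvec_dec hI hd n hn)
    (fun n hn => h_zero_succ hI hn)
  refine ⟨lam, c, ⟨e1, e2, e3, e4, hs, le_rfl, by omega, hs, hI.finite⟩,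
    ⟨e1, e2, e3, e5, by omega, ht.1, by omega, hs, hI.finite⟩, e6, e7⟩

theorem deg_pos {I : Ideal (RR k)} {h : ℕ → ℕ} (hI : IsCurve I h) : 0 < deg h := by
  have h1 := sum_le_deg hI.finite 1
  rw [Finset.sum_range_one, h_lt_s hI (sI_pos hI)] at h1
  omega

theorem MaxPair.symm {I₁ I₂ : Ideal (RR k)} {h₁ h₂ : ℕ → ℕ} {l : ℕ}
    (hM : MaxPair I₁ I₂ h₁ h₂ l) : MaxPair I₂ I₁ h₂ h₁ l where
  curve₁ := hM.curve₂
  curve₂ := hM.curve₁
  length := hM.length.symm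
  max J₁ J₂ l' h1 h2 h3 := hM.max J₂ J₁ l' h2 h1 h3.symm

/-- **Main theorem.** -/
theorem main [Infinite k] {I₁ I₂ : Ideal (RR k)} {h₁ h₂ : ℕ → ℕ} {l : ℕ} (hd₁ : DecType h₁)
    (hd₂ : DecType h₂) (hM : MaxPair I₁ I₂ h₁ h₂ l) (hc : Covered h₁ h₂) :
    OnSurface I₁ I₂ (m0 h₁ h₂) := by
  have hI₁ := hM.curve₁
  have hI₂ := hM.curve₂
  obtain ⟨lam₁, c₁, Y₁, -, -, -⟩ := exists_YD hI₁ hd₁
  obtain ⟨lam₂, c₂, Y₂, Z₂, hlam, hc2⟩ := exists_YD hI₂ hd₂
  have s1 := sI_pos hI₁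
  have s2 := sI_pos hI₂
  have t1 := tI_mem hI₁
  have t2 := tI_mem hI₂
  have hm := m0_mem (h₁ := h₁) (h₂ := h₂)
  have hdeg := deg_pos hI₁
  -- the lower bound `t₂ d₁` is always sufficient
  have hbig : tI h₂ * deg h₁ ≤ l → OnSurface I₁ I₂ (m0 h₁ h₂) := by
    intro hl
    rcases eq_or_lt_of_le t2.1 with h | h
    · refine onSurface_of_le_mul hI₁ hI₂ hd₁ hd₂ hM.length ?_ (by rwa [h])
      rcases hm.2 with h' | h' <;> omega
    · refine onSurface_of_lt_mul hI₁ hI₂ hd₁ hd₂ hM.length (lt_of_lt_of_le ?_ hl)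
      exact Nat.mul_lt_mul_of_pos_right h hdeg
  -- the vertex
  have hver : sI h₁ = sI h₂ → ((sI h₁ * deg h₁ : ℕ) : ℤ) < ver h₁ (sI h₁) (tI h₂) →
      OnSurface I₁ I₂ (m0 h₁ h₂) := by
    intro hs hv
    rcases eq_or_lt_of_le (show 1 ≤ tI h₂ by omega) with h | h
    · exfalso
      rw [← h] at hv
      have e1 : ver h₁ (sI h₁) 1 = 0 := by
        rw [ver, Finset.sum_range_one, h_lt_s hI₁ s1, if_pos (by omega)]
        norm_num
      rw [e1] at hv
      omega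
    · rw [← hs] at Y₂
      obtain ⟨J₁, J₂, l', e1, e2, e3, e4⟩ := exists_vertex (k := k) Y₁ Y₂ (by omega)
      have e5 := hM.max J₁ J₂ l' e1 e2 e3
      rw [show tI h₂ - 1 + 1 = tI h₂ by omega] at e4
      have e6 : AA h₁ (sI h₁) (tI h₂) = ver h₁ (sI h₁) (tI h₂) := rfl
      rw [e6] at e4
      refine onSurface_of_lt_mul hI₁ hI₂ hd₁ hd₂ hM.length ?_
      rw [← hs]
      have e7 : (l' : ℤ) ≤ l := by exact_mod_cast e5
      have e8 : ((sI h₁ * deg h₁ : ℕ) : ℤ) < l := by linarith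
      exact_mod_cast e8
  rcases hc with ⟨hs, hc⟩ | ⟨hs, htm, hl, hk⟩ | ⟨hs, hl, hk⟩
  · have hkap : kap h₂ = 0 → OnSurface I₁ I₂ (m0 h₁ h₂) := by
      intro hk
      rw [← hs] at Y₂
      have h0 : lam₂ 0 = 0 := by
        by_contra hcon
        have := (Y₂.yd 0 0).2 (by omega)
        omega
      obtain ⟨J₁, J₂, e1, e2, e3⟩ := exists_ci (k := k) Y₁ Y₂ h0
      rw [show tI h₂ - 1 + 1 = tI h₂ by omega] at e3
      exact hbig (hM.max J₁ J₂ _ e1 e2 e3)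
    rcases hc with hk | hv | ⟨h3, h4⟩ | h3
    · exact hkap hk
    · exact hver hs hv
    · refine hver hs ?_
      exact num_one s1 t1.1 (fun n hn => h_lt_s hI₁ hn) (fun n h1 h2 => h_lt_t hI₁ h1 h2) t1.2
        (fun n hn => hvec_dec hI₁ hd₁ n hn) (fun n hn => h_zero_succ hI₁ hn) h3 h4
    · rcases eq_or_lt_of_le s1 with h | h
      · apply hkap
        have := Y₂.c0
        omega
      · refine hver hs ?_
        exact num_two s1 t1.1 (fun n hn => h_lt_s hI₁ hn) (fun n h1 h2 => h_lt_t hI₁ h1 h2) t1.2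
          (fun n hn => hvec_dec hI₁ hd₁ n hn) (fun n hn => h_zero_succ hI₁ hn) h h3
  · obtain ⟨J₁, J₂, e1, e2, e3⟩ := exists_pair (k := k) Y₁ Y₂ hs (by omega) (by omega)
    exact onSurface_of_le_mul hI₁ hI₂ hd₁ hd₂ hM.length htm (hM.max J₁ J₂ _ e1 e2 e3)
  · obtain ⟨J₁, J₂, e1, e2, e3⟩ := exists_pair (k := k) Y₁ Z₂ (by omega) (by omega) (by omega)
    exact hbig (hM.max J₁ J₂ _ e1 e2 e3)

end

end Pool.Agent.Helper95.ME
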