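import Pool.Agent.Helper95.ME.Cols

/-!
Rows and columns of a grid in the plane.
-/

set_option autoImplicit false

namespace Pool.Agent.Helper95.ME

open MvPolynomial Module Pool.Agent.Helper95.MI

section

variable {k : Type*} [Field k]

/-- the row `x = r z` -/
noncomputable def rowF (r : k) : SS k := X 0 - C r * X 2

/-- the column `y = q z` -/
noncomputable def colF (q : k) : SS k := X 1 - C q * X 2

/-- evaluation at the point `(1:0:0)` -/
noncomputable def ev1 : SS k →+* k := eval (fun i => if i = 0 then 1 else 0)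

theorem ev1_row (r : k) : ev1 (rowF r) = 1 := by
  simp [ev1, rowF]

theorem ev1_col (q : k) : ev1 (colF q) = 0 := by
  simp [ev1, colF]

theorem ev1_z : ev1 (X 2 : SS k) = 0 := by
  simp [ev1]

theorem rowF_hom (r : k) : (rowF r).IsHomogeneous 1 := by
  refine (isHomogeneous_X k 0).sub ?_
  have := (isHomogeneous_C (Fin 3) r).mul (isHomogeneous_X k (2 : Fin 3))
  rwa [zero_add] at this

theorem colF_hom (q : k) : (colF q).IsHomogeneous 1 := by
  refine (isHomogeneous_X k 1).sub ?_
  have := (isHomogeneous_C (Fin 3) q).mul (isHomogeneous_X k (2 : Fin 3))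
  rwa [zero_add] at this

/-- restriction to a column -/
noncomputable def psi (q : k) : SS k →ₐ[k] SS k :=
  aeval (fun i => if i = 1 then C q * X 2 else X i)

theorem psi_sub (q : k) (f : SS k) : f - psi q f ∈ Ideal.span {colF q} := by
  induction f using MvPolynomial.induction_on with
  | C a =>
    have : psi q (C a) = C a := by
      rw [psi, aeval_C]
      rfl
    rw [this, sub_self]
    exact Submodule.zero_mem _
  | add p p' hp hp' =>
    rw [map_add]
    have : p + p' - (psi q p + psi q p') = (p - psi q p) + (p' - psi q p') := by ring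
    rw [this]
    exact Ideal.add_mem _ hp hp'
  | mul_X p i hp =>
    have h1 : (X i : SS k) - psi q (X i) ∈ Ideal.span {colF q} := by
      rw [psi, aeval_X]
      split_ifs with h
      · rw [h]
        exact Ideal.mem_span_singleton_self _
      · rw [sub_self]
        exact Submodule.zero_mem _
    rw [map_mul]
    have : p * X i - psi q p * psi q (X i) =
      (p - psi q p) * X i + psi q p * (X i - psi q (X i)) := by ring
    rw [this]
    exact Ideal.add_mem _ (Ideal.mul_mem_right _ _ hp) (Ideal.mul_mem_left _ _ h1)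

theorem psi_col (q : k) : psi q (colF q) = 0 := by
  rw [colF, map_sub, map_mul, psi, aeval_X, aeval_X, aeval_C, if_pos rfl, if_neg (by decide)]
  exact sub_self _

theorem mem_col {q : k} {f : SS k} : colF q ∣ f ↔ psi q f = 0 := by
  constructor
  · rintro ⟨u, rfl⟩
    rw [map_mul, psi_col, zero_mul]
  · intro h
    have := psi_sub q f
    rw [h, sub_zero] at this
    exact Ideal.mem_span_singleton.1 this

theorem colF_ne_zero (q : k) : colF q ≠ 0 := by
  intro h
  have := congrArg (eval (fun i : Fin 3 => if i = 1 then (1 : k) else 0)) h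
  simp [colF] at this

theorem prime_col (q : k) : Prime (colF q) := by
  refine ⟨colF_ne_zero q, ?_, ?_⟩
  · intro h
    have h1 : colF q ∣ 1 := h.dvd
    rw [mem_col, map_one] at h1
    exact one_ne_zero h1
  · intro a b h
    rw [mem_col, map_mul, mul_eq_zero] at h
    rcases h with h | h
    · exact Or.inl (mem_col.2 h)
    · exact Or.inr (mem_col.2 h)

theorem ev1_psi (q : k) (f : SS k) : ev1 (psi q f) = ev1 f := by
  have h1 := psi_sub q f
  obtain ⟨u, hu⟩ := Ideal.mem_span_singleton.1 h1
  have h2 : psi q f = f - colF q * u := by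
    rw [← hu]
    ring
  rw [h2, map_sub, map_mul, ev1_col, zero_mul, sub_zero]

theorem not_col_dvd {q : k} {g : SS k} (h : ev1 g ≠ 0) : ¬ colF q ∣ g := by
  rintro ⟨u, rfl⟩
  rw [map_mul, ev1_col, zero_mul] at h
  exact h rfl

theorem prime_z : Prime (X 2 : SS k) := MvPolynomial.X_prime

/-- `z` is regular -/
theorem reg_z {q : k} {g : SS k} (hg : ev1 g ≠ 0) :
    Reg (X 2 : SS k) (Ideal.span {g} ⊔ Ideal.span {colF q}) := by
  intro f hf
  obtain ⟨u, v, h⟩ := mem_sup_span_iff.1 hf
  have h1 := congrArg (psi q) h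
  have h0 : psi q (X 2) = X 2 := by
    rw [psi, aeval_X, if_neg (by decide)]
  rw [map_mul, map_add, map_mul, map_mul, psi_col, zero_mul, add_zero, h0] at h1
  have h2 : (X 2 : SS k) ∣ psi q g * psi q u := ⟨psi q f, by rw [← h1]; ring⟩
  rcases prime_z.dvd_or_dvd h2 with h3 | h3
  · exfalso
    obtain ⟨y, hy⟩ := h3
    have h4 := congrArg ev1 hy
    rw [ev1_psi, map_mul, ev1_z, zero_mul] at h4
    exact hg h4
  · obtain ⟨y, hy⟩ := h3
    rw [hy] at h1
    have h4 : psi q f = psi q g * y := by
      apply mul_right_cancel₀ (X_ne_zero (R := k) (2 : Fin 3))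
      rw [h1]
      ring
    obtain ⟨a, ha⟩ := Ideal.mem_span_singleton.1 (psi_sub q f)
    obtain ⟨b, hb⟩ := Ideal.mem_span_singleton.1 (psi_sub q g)
    rw [mem_sup_span_iff]
    refine ⟨y, a - b * y, ?_⟩
    linear_combination ha + h4 - y * hb

theorem reg_C {c : k} (hc : c ≠ 0) (I : Ideal (SS k)) : Reg (C c : SS k) I := by
  intro f hf
  have h1 : f = (f * C c) * C c⁻¹ := by
    rw [mul_assoc, ← C_mul, mul_inv_cancel₀ hc, C_1, mul_one]
  rw [h1]
  exact I.mul_mem_right _ hf

theorem reg_col {q q' : k} (h : q ≠ q') {g : SS k} (hg : ev1 g ≠ 0) :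
    Reg (colF q') (Ideal.span {g} ⊔ Ideal.span {colF q}) := by
  refine Reg.congr ((reg_C (sub_ne_zero.2 h) _).mul (reg_z hg)) ?_
  have : colF q' - C (q - q') * X 2 = colF q := by
    rw [colF, colF, C_sub]
    ring
  rw [this]
  exact Ideal.mem_sup_right (Ideal.mem_span_singleton_self _)

theorem reg_row {r r' q : k} (h : r ≠ r') :
    Reg (rowF r') (Ideal.span {rowF r} ⊔ Ideal.span {colF q}) := by
  refine Reg.congr ((reg_C (sub_ne_zero.2 h) _).mul (reg_z (by rw [ev1_row]; exact one_ne_zero))) ?_
  have : rowF r' - C (r - r') * X 2 = rowF r := by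
    rw [rowF, rowF, C_sub]
    ring
  rw [this]
  exact Ideal.mem_sup_left (Ideal.mem_span_singleton_self _)

theorem reg_rows {r : ℕ → k} {r' q : k} (s : Finset ℕ) (h : ∀ i ∈ s, r i ≠ r') :
    Reg (rowF r') (Ideal.span {∏ i ∈ s, rowF (r i)} ⊔ Ideal.span {colF q}) := by
  classical
  induction s using Finset.induction_on with
  | empty =>
    rw [Finset.prod_empty, Ideal.span_singleton_one, top_sup_eq]
    exact fun f _ => Submodule.mem_top
  | insert a s ha ih =>
    rw [Finset.prod_insert ha]
    refine Reg.of_mul (prime_col q) (not_col_dvd ?_) (reg_row (h a (Finset.mem_insert_self _ _)))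
      (ih fun i hi => h i (Finset.mem_insert_of_mem hi))
    rw [ev1_row]
    exact one_ne_zero

theorem ev1_rows (r : ℕ → k) (s : Finset ℕ) : ev1 (∏ i ∈ s, rowF (r i)) = 1 := by
  rw [map_prod]
  exact Finset.prod_eq_one fun i _ => ev1_row _

theorem not_dvd_col {F : SS k} (hF : Prime F) (hev : ev1 F ≠ 0) (q : k) : ¬ F ∣ colF q := by
  rintro ⟨u, hu⟩
  rcases (prime_col q).irreducible.isUnit_or_isUnit hu with h | h
  · exact hF.not_isUnit h
  · obtain ⟨v, rfl⟩ := h
    apply not_col_dvd hev (q := q)
    exact ⟨(↑(v⁻¹) : SS k), by rw [hu, mul_assoc, Units.mul_inv, mul_one]⟩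

theorem rows_hom (r : ℕ → k) (s : Finset ℕ) : (∏ i ∈ s, rowF (r i)).IsHomogeneous s.card := by
  have h := IsHomogeneous.prod s (fun i => rowF (r i)) (fun _ => 1) (fun i _ => rowF_hom _)
  rwa [Finset.sum_const, smul_eq_mul, mul_one] at h

end

end Pool.Agent.Helper95.ME
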