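import Pool.Agent.Helper95.ME.Kern

/-!
The Hilbert function of the curves of `Kern`.
-/

set_option autoImplicit false

namespace Pool.Agent.Helper95.ME

open MvPolynomial Module Pool.Agent.Helper95.MI

section

variable {k : Type*} [Field k]

/-- division by `w` -/
noncomputable def dv : RR k →ₗ[k] RR k where
  toFun f := ee.symm (ee f).divX
  map_add' f g := by rw [map_add, Polynomial.divX_add, map_add]
  map_smul' c f := by
    have h : ee (c • f) = Polynomial.C (C c) * ee f := by
      rw [map_smul, MvPolynomial.C_eq_smul_one]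
      ext i : 1
      rw [Polynomial.coeff_smul, Polynomial.coeff_C_mul, smul_mul_assoc, one_mul]
    rw [h, Polynomial.divX_C_mul, map_mul, ee_symm_C, RingHom.id_apply, Algebra.smul_def]
    congr 1
    change rename Fin.succ (C c) = _
    rw [rename_C]
    rfl

theorem ee_dv (f : RR k) : ee (dv f) = (ee f).divX := by
  change ee (ee.symm _) = _
  rw [AlgEquiv.apply_symm_apply]

theorem dv_add (f : RR k) : X 0 * dv f + iot ((ee f).coeff 0) = f := by
  apply ee.injective
  rw [map_add, map_mul, ee_w, ee_iot, ee_dv, Polynomial.X_mul_divX_add]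

theorem dv_w (f : RR k) : dv (X 0 * f) = f := by
  apply ee.injective
  rw [ee_dv, map_mul, ee_w]
  ext i : 1
  rw [Polynomial.coeff_divX, Polynomial.coeff_X_mul]

theorem dv_iot (g : SS k) : dv (iot g) = 0 := by
  apply ee.injective
  rw [ee_dv, ee_iot, Polynomial.divX_C, map_zero]

/-- the polynomials not involving `w` -/
noncomputable def WW (k : Type*) [Field k] : Submodule k (RR k) := LinearMap.ker dv

theorem mem_WW {f : RR k} : f ∈ WW k ↔ dv f = 0 := LinearMap.mem_ker

theorem iot_mem_WW (g : SS k) : iot g ∈ WW k := mem_WW.2 (dv_iot g)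

theorem eq_iot {f : RR k} (h : f ∈ WW k) : f = iot ((ee f).coeff 0) := by
  have := dv_add f
  rw [mem_WW.1 h, mul_zero, zero_add] at this
  exact this.symm

theorem coeff0_hom {f : RR k} {n : ℕ} (h : f.IsHomogeneous n) :
    ((ee f).coeff 0).IsHomogeneous n :=
  h.finSuccEquiv_coeff_isHomogeneous 0 n (by omega)

theorem dv_hom {f : RR k} {n : ℕ} (h : f.IsHomogeneous (n + 1)) : (dv f).IsHomogeneous n := by
  have h1 : (X 0 * dv f).IsHomogeneous (1 + n) := by
    have h2 : X 0 * dv f = f - iot ((ee f).coeff 0) := by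
      rw [eq_sub_iff_add_eq, dv_add]
    rw [h2, add_comm]
    exact h.sub (iot_hom (coeff0_hom h))
  exact hom_right h1 (isHomogeneous_X k 0) w_ne_zero

/-- homogeneous components and the inclusion -/
theorem iot_hc (g : SS k) (n : ℕ) :
    iot (homogeneousComponent n g) = (homogeneousComponent n (iot g) : RR k) := by
  have h1 : ∀ i, homogeneousComponent n (iot (homogeneousComponent i g) : RR k) =
      if i = n then iot (homogeneousComponent n g) else 0 := by
    intro i
    rw [homogeneousComponent_of_mem (n := i) (iot_hom (homogeneousComponent_isHomogeneous i g))]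
    by_cases h : i = n
    · rw [if_pos h, if_pos h.symm, h]
    · rw [if_neg h, if_neg (Ne.symm h)]
  conv_rhs => rw [← sum_homogeneousComponent g, map_sum, map_sum]
  rw [Finset.sum_congr rfl (fun i _ => h1 i), Finset.sum_ite_eq']
  split_ifs with h
  · rfl
  · rw [homogeneousComponent_eq_zero, map_zero]
    rw [Finset.mem_range] at h
    omega

/-- the extension of an ideal -/
noncomputable abbrev ext (J : Ideal (SS k)) : Ideal (RR k) := J.map (iot : SS k →ₐ[k] RR k)

theorem mem_ext {J : Ideal (SS k)} {f : RR k} : f ∈ ext J ↔ ∀ i, (ee f).coeff i ∈ J := by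
  constructor
  · intro h
    have h1 : ext J ≤ (J.map (Polynomial.C : SS k →+* Polynomial (SS k))).comap
        (RingHomClass.toRingHom (ee (k := k))) := by
      rw [ext, Ideal.map_le_iff_le_comap]
      intro g hg
      rw [Ideal.mem_comap, Ideal.mem_comap]
      change ee (iot g) ∈ _
      rw [ee_iot]
      exact Ideal.mem_map_of_mem _ hg
    have h2 := h1 h
    rw [Ideal.mem_comap] at h2
    exact Ideal.mem_map_C_iff.1 h2
  · intro h
    have h1 : f = ∑ i ∈ Finset.range ((ee f).natDegree + 1), iot ((ee f).coeff i) * X 0 ^ i := by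
      apply ee.injective
      conv_lhs => rw [(ee f).as_sum_range_C_mul_X_pow]
      rw [map_sum]
      refine Finset.sum_congr rfl fun i _ => ?_
      rw [map_mul, map_pow, ee_iot, ee_w]
    rw [h1]
    refine Ideal.sum_mem _ fun i _ => Ideal.mul_mem_right _ _ ?_
    exact Ideal.mem_map_of_mem _ (h i)

theorem iot_mem_ext {J : Ideal (SS k)} {g : SS k} : iot g ∈ ext J ↔ g ∈ J := by
  rw [mem_ext]
  constructor
  · intro h
    have := h 0
    rwa [ee_iot, Polynomial.coeff_C_zero] at this
  · intro h i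
    rw [ee_iot, Polynomial.coeff_C]
    split_ifs
    · exact h
    · exact J.zero_mem

theorem w_mem_ext {J : Ideal (SS k)} {f : RR k} (h : X 0 * f ∈ ext J) : f ∈ ext J := by
  rw [mem_ext] at h ⊢
  intro i
  have := h (i + 1)
  rwa [map_mul, ee_w, Polynomial.coeff_X_mul] at this

theorem dv_mem_ext {J : Ideal (SS k)} {f : RR k} (h : f ∈ ext J) : dv f ∈ ext J := by
  rw [mem_ext] at h ⊢
  intro i
  rw [ee_dv, Polynomial.coeff_divX]
  exact h _

/-- dimension of the space of forms of degree `n` in `L` not involving `w` -/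
noncomputable def ps (L : Ideal (RR k)) (n : ℕ) : ℕ := finrank k (PP L n ⊓ WW k : Submodule k (RR k))

theorem rank_null (V : Submodule k (RR k)) [FiniteDimensional k V] (f : RR k →ₗ[k] RR k) :
    finrank k V = finrank k (V ⊓ LinearMap.ker f : Submodule k (RR k)) + finrank k (V.map f) := by
  have h2 := LinearMap.finrank_range_add_finrank_ker (f.domRestrict V)
  have h3 : LinearMap.range (f.domRestrict V) = V.map f := by
    rw [LinearMap.domRestrict, LinearMap.range_comp, Submodule.range_subtype]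
  have h4 : finrank k (LinearMap.ker (f.domRestrict V)) =
      finrank k (V ⊓ LinearMap.ker f : Submodule k (RR k)) := by
    have h5 : (LinearMap.ker (f.domRestrict V)).map V.subtype = V ⊓ LinearMap.ker f := by
      ext x
      rw [Submodule.mem_map]
      constructor
      · rintro ⟨y, hy, rfl⟩
        exact ⟨y.2, hy⟩
      · rintro ⟨hx, hI⟩
        exact ⟨⟨x, hx⟩, hI, rfl⟩
    rw [← h5]
    exact (LinearEquiv.finrank_eq (Submodule.equivMapOfInjective _
      (Submodule.injective_subtype _) _))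
  rw [h3, h4] at h2
  omega

theorem pp_succ (L : Ideal (RR k)) (n : ℕ) :
    finrank k (PP L (n + 1)) = ps L (n + 1) + finrank k ((PP L (n + 1)).map dv) :=
  rank_null (PP L (n + 1)) dv

theorem pp_zero_aux {x : RR k} (hx' : x.IsHomogeneous 0) : x ∈ WW k := by
  rw [mem_WW]
  have h2 : x = C (coeff 0 x) := by
    rcases eq_or_ne x 0 with h | h
    · rw [h, coeff_zero, C_0]
    · exact (totalDegree_eq_zero_iff_eq_C).1 (IsHomogeneous.totalDegree hx' h)
  have h3 : x = iot (C (coeff 0 x)) := by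
    rw [iot, rename_C]
    exact h2
  rw [h3, dv_iot]

theorem pp_zero (L : Ideal (RR k)) : finrank k (PP L 0) = ps L 0 := by
  have h0 : PP L 0 ⊓ WW k = PP L 0 := by
    rw [inf_eq_left]
    exact fun x hx => pp_zero_aux hx.1
  unfold ps
  rw [h0]

theorem ext_map_dv (J : Ideal (SS k)) (n : ℕ) : (PP (ext J) (n + 1)).map dv = PP (ext J) n := by
  apply le_antisymm
  · rintro _ ⟨f, ⟨hf, hfJ⟩, rfl⟩
    exact ⟨dv_hom hf, dv_mem_ext hfJ⟩
  · rintro f ⟨hf, hfJ⟩
    refine ⟨X 0 * f, ⟨?_, Ideal.mul_mem_left _ _ hfJ⟩, dv_w f⟩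
    rw [add_comm]
    exact (isHomogeneous_X k 0).mul hf

theorem pd_ext_succ (J : Ideal (SS k)) (n : ℕ) :
    pd (ext J) (n + 1 : ℕ) = ps (ext J) (n + 1) + pd (ext J) n := by
  rw [pd_nat, pd_nat, pp_succ, ext_map_dv]
  push_cast
  rfl

theorem pd_ext_zero (L : Ideal (RR k)) : pd L (0 : ℕ) = ps L 0 := by
  rw [pd_nat, pp_zero]

theorem ps_ext (J : Ideal (SS k)) (n : ℕ) :
    (ps (ext J) n : ℤ) = pd (ext J) n - pd (ext J) (n - 1) := by
  rcases n with _ | n
  · rw [pd_ext_zero, pd_neg _ (by norm_num), sub_zero]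
  · rw [pd_ext_succ]
    push_cast
    rw [add_sub_cancel_right]
    ring

namespace CD

variable (D : CD k)

theorem PP_I_W (n : ℕ) : PP D.I n ⊓ WW k = PP (ext (Ideal.span {D.F})) n ⊓ WW k := by
  ext f
  constructor
  · rintro ⟨⟨hf, hfI⟩, hW⟩
    refine ⟨⟨hf, ?_⟩, hW⟩
    have hfI' : f ∈ D.I := hfI
    have h1 := eq_iot hW
    rw [h1, iot_mem_I] at hfI'
    rw [h1]
    exact iot_mem_ext.2 (Ideal.mem_span_singleton.2 hfI')
  · rintro ⟨⟨hf, hfI⟩, hW⟩
    refine ⟨⟨hf, ?_⟩, hW⟩
    have hfI' : f ∈ ext (Ideal.span {D.F}) := hfI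
    have h1 := eq_iot hW
    rw [h1, iot_mem_ext, Ideal.mem_span_singleton] at hfI'
    rw [h1]
    exact D.iot_mem_I.2 hfI'

theorem ps_I (n : ℕ) : ps D.I n = ps (ext (Ideal.span {D.F})) n := by
  unfold ps
  rw [D.PP_I_W]

variable (hom : Hom D.I) (homJ : Hom (ext D.J))

include hom homJ

theorem I_map_dv (n : ℕ) :
    (PP D.I (n + 1)).map dv = PP D.I n ⊔ (PP (ext D.J) n ⊓ WW k) := by
  apply le_antisymm
  · rintro _ ⟨f, ⟨hf, hfI⟩, rfl⟩
    have hfI' : f ∈ D.I := hfI
    rw [← dv_add f] at hfI'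
    have h1 : X 0 * dv f - iot (-(ee f).coeff 0) ∈ D.I := by
      rw [map_neg, sub_neg_eq_add]
      exact hfI'
    obtain ⟨j, hj, hj2⟩ := D.exists_j h1
    have h2 := dv_hom hf
    have h3 := hom _ hj2 n
    rw [map_sub, hc_self h2, ← iot_hc] at h3
    have h4 : dv f = (dv f - iot (homogeneousComponent n j)) + iot (homogeneousComponent n j) := by
      ring
    have h5 : iot (homogeneousComponent n j) ∈ ext D.J := by
      rw [iot_hc]
      exact homJ _ (iot_mem_ext.2 hj) n
    have h6 : (iot (homogeneousComponent n j) : RR k).IsHomogeneous n :=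
      iot_hom (homogeneousComponent_isHomogeneous n j)
    rw [h4]
    exact Submodule.add_mem_sup ⟨h2.sub h6, h3⟩ ⟨⟨h6, h5⟩, iot_mem_WW _⟩
  · refine sup_le ?_ ?_
    · rintro f ⟨hf, hfI⟩
      refine ⟨X 0 * f, ⟨?_, Ideal.mul_mem_left _ _ hfI⟩, dv_w f⟩
      rw [add_comm]
      exact (isHomogeneous_X k 0).mul hf
    · rintro f ⟨⟨hf, hfJ⟩, hW⟩
      have hf' : f.IsHomogeneous n := hf
      have h1 := eq_iot hW
      set g := (ee f).coeff 0 with hg
      have h2 : g ∈ D.J := by
        have : f ∈ ext D.J := hfJ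
        rw [h1] at this
        exact iot_mem_ext.1 this
      obtain ⟨c, hc⟩ := D.exists_c h2
      have h3 := hom _ (D.lin_mem_I.2 hc) (n + 1)
      have h5 : (X 0 * iot g : RR k).IsHomogeneous (n + 1) := by
        rw [← h1, add_comm]
        exact (isHomogeneous_X k 0).mul hf'
      rw [map_sub, ← iot_hc, hc_self h5] at h3
      refine ⟨X 0 * iot g - iot (homogeneousComponent (n + 1) c), ⟨h5.sub
        (iot_hom (homogeneousComponent_isHomogeneous _ c)), h3⟩, ?_⟩
      rw [map_sub, dv_w, dv_iot, sub_zero]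
      exact h1.symm

theorem pd_I_succ (n : ℕ) : pd D.I (n + 1 : ℕ) =
    ps (ext (Ideal.span {D.F})) (n + 1) + pd D.I n + ps (ext D.J) n -
      ps (ext (Ideal.span {D.F})) n := by
  rw [pd_nat, pd_nat, pp_succ, D.I_map_dv hom homJ, D.ps_I]
  have h1 := Submodule.finrank_sup_add_finrank_inf_eq (PP D.I n) (PP (ext D.J) n ⊓ WW k)
  have h2 : PP D.I n ⊓ (PP (ext D.J) n ⊓ WW k) = PP D.I n ⊓ WW k := by
    apply le_antisymm
    · rintro f ⟨h1, h2, h3⟩
      exact ⟨h1, h3⟩
    · rintro f ⟨⟨h1, h1'⟩, h3⟩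
      refine ⟨⟨h1, h1'⟩, ⟨h1, ?_⟩, h3⟩
      have h4 := eq_iot h3
      have h5 : f ∈ D.I := h1'
      rw [h4, iot_mem_I] at h5
      rw [h4]
      obtain ⟨u, hu⟩ := h5
      rw [hu]
      exact iot_mem_ext.2 (D.J.mul_mem_right _ D.F_mem_J)
  rw [h2] at h1
  have h3 : finrank k (PP D.I n ⊓ WW k : Submodule k (RR k)) = ps (ext (Ideal.span {D.F})) n :=
    D.ps_I n
  have h4 : finrank k (PP (ext D.J) n ⊓ WW k : Submodule k (RR k)) = ps (ext D.J) n := rfl
  rw [h3, h4] at h1
  push_cast
  have h5 : ((finrank k (PP D.I n ⊔ (PP (ext D.J) n ⊓ WW k) : Submodule k (RR k)) : ℤ) +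
      ps (ext (Ideal.span {D.F})) n) = finrank k (PP D.I n) + ps (ext D.J) n := by
    exact_mod_cast h1
  linarith

/-- the dimension of the graded pieces of the ideal of the curve -/
theorem pd_I : ∀ n : ℤ, pd D.I n = pd (ext (Ideal.span {D.F})) n -
    pd (ext (Ideal.span {D.F})) (n - 1) + pd (ext D.J) (n - 1) := by
  have key : ∀ n : ℕ, pd D.I n = pd (ext (Ideal.span {D.F})) n -
    pd (ext (Ideal.span {D.F})) ((n : ℤ) - 1) + pd (ext D.J) ((n : ℤ) - 1) := by
    intro n
    induction n with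
    | zero =>
      rw [pd_ext_zero, pd_ext_zero, D.ps_I, pd_neg _ (by norm_num), pd_neg _ (by norm_num)]
      ring
    | succ n ih =>
      rw [D.pd_I_succ hom homJ, ih, pd_ext_succ, ps_ext (Ideal.span {D.F}) n, ps_ext D.J n]
      push_cast
      rw [add_sub_cancel_right]
      ring
  intro n
  rcases lt_or_ge n 0 with h | h
  · rw [pd_neg _ h, pd_neg _ h, pd_neg _ (by omega), pd_neg _ (by omega)]
    ring
  · obtain ⟨m, rfl⟩ := Int.eq_ofNat_of_zero_le h
    exact key m

end CD

end

end Pool.Agent.Helper95.ME
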