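import Pool.Agent.Helper95.MI.Bez

/-!
Curves with function `w = β/α` over a plane curve `F = 0`.
-/

set_option autoImplicit false

namespace Pool.Agent.Helper95.ME

open MvPolynomial Module Pool.Agent.Helper95.MI

section

variable {k : Type*} [Field k]

/-- the ring `k[x,y,z]` -/
abbrev SS (k : Type*) [Field k] := MvPolynomial (Fin 3) k

/-- the inclusion of `k[x,y,z]` into `k[w,x,y,z]` -/
noncomputable def iot : SS k →ₐ[k] RR k := rename Fin.succ

/-- `k[w,x,y,z]` as a polynomial ring in `w` -/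
noncomputable def ee : RR k ≃ₐ[k] Polynomial (SS k) := finSuccEquiv k 3

theorem ee_w : ee (X 0 : RR k) = Polynomial.X := finSuccEquiv_X_zero

theorem ee_iot (g : SS k) : ee (iot g) = Polynomial.C g := by
  have h : (ee.toAlgHom.comp iot : SS k →ₐ[k] Polynomial (SS k)) =
      (IsScalarTower.toAlgHom k (SS k) (Polynomial (SS k))) := by
    apply MvPolynomial.algHom_ext
    intro i
    change ee (rename Fin.succ (X i)) = Polynomial.C (X i)
    rw [rename_X]
    exact finSuccEquiv_X_succ
  exact congrArg (fun f => f g) h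

theorem iot_inj : Function.Injective (iot : SS k → RR k) :=
  rename_injective _ (Fin.succ_injective 3)

theorem iot_hom {g : SS k} {n : ℕ} (h : g.IsHomogeneous n) : (iot g : RR k).IsHomogeneous n :=
  h.rename_isHomogeneous

theorem iot_hom_iff {g : SS k} {n : ℕ} : (iot g : RR k).IsHomogeneous n ↔ g.IsHomogeneous n :=
  IsHomogeneous.rename_isHomogeneous_iff (Fin.succ_injective 3)

theorem ee_symm_C (g : SS k) : ee.symm (Polynomial.C g) = (iot g : RR k) := by
  rw [← ee_iot, AlgEquiv.symm_apply_apply]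

theorem ee_symm_X : ee.symm (Polynomial.X : Polynomial (SS k)) = (X 0 : RR k) := by
  rw [← ee_w, AlgEquiv.symm_apply_apply]

theorem w_ne_zero : (X 0 : RR k) ≠ 0 := X_ne_zero 0

/-- The data of a curve. -/
structure CD (k : Type*) [Field k] where
  F : SS k
  α : SS k
  β : SS k
  J : Ideal (SS k)
  hF : Prime F
  hα : ¬ F ∣ α
  hJ : ∀ f, f ∈ J ↔ f * β ∈ Ideal.span {F} ⊔ Ideal.span {α}
  hP : ∀ f, f * β ∈ J → f ∈ J

namespace CD

variable (D : CD k)

instance : (Ideal.span {D.F}).IsPrime := (Ideal.span_singleton_prime D.hF.ne_zero).2 D.hF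

/-- the function field of the plane curve -/
abbrev KK : Type _ := FractionRing (SS k ⧸ Ideal.span {D.F})

/-- the map to the function field -/
noncomputable def phi : SS k →+* D.KK :=
  (algebraMap (SS k ⧸ Ideal.span {D.F}) D.KK).comp (Ideal.Quotient.mk _)

theorem phi_eq_zero {f : SS k} : D.phi f = 0 ↔ D.F ∣ f := by
  rw [phi, RingHom.comp_apply, map_eq_zero_iff _ (IsFractionRing.injective _ _),
    Ideal.Quotient.eq_zero_iff_mem, Ideal.mem_span_singleton]

/-- the function `w` -/
noncomputable def om : D.KK := D.phi D.β / D.phi D.α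

theorem phi_alpha : D.phi D.α ≠ 0 := fun h => D.hα (D.phi_eq_zero.1 h)

theorem alpha_om : D.phi D.α * D.om = D.phi D.β := by
  rw [om, mul_div_cancel₀ _ D.phi_alpha]

/-- evaluation of a polynomial in `w` -/
noncomputable def eps : Polynomial (SS k) →+* D.KK := Polynomial.eval₂RingHom D.phi D.om

theorem eps_C (f : SS k) : D.eps (Polynomial.C f) = D.phi f := by
  simp [eps]

theorem eps_X : D.eps Polynomial.X = D.om := by
  simp [eps]

/-- the ideal of the curve -/
noncomputable def I : Ideal (RR k) :=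
  RingHom.ker (D.eps.comp (RingHomClass.toRingHom (ee (k := k))))

theorem mem_I {f : RR k} : f ∈ D.I ↔ D.eps (ee f) = 0 := by
  rw [I, RingHom.mem_ker, RingHom.comp_apply]
  rfl

theorem prime_I : D.I.IsPrime := by
  unfold I
  exact RingHom.ker_isPrime _

theorem iot_mem_I {g : SS k} : iot g ∈ D.I ↔ D.F ∣ g := by
  rw [mem_I, ee_iot, eps_C, phi_eq_zero]

theorem F_mem_J : D.F ∈ D.J := by
  rw [D.hJ]
  exact Ideal.mem_sup_left (Ideal.mul_mem_right _ _ (Ideal.mem_span_singleton_self _))

theorem F_mem_I : iot D.F ∈ D.I := D.iot_mem_I.2 dvd_rfl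

theorem pow_mem {a : SS k} {n : ℕ}
    (h : a * D.β ^ (n + 1) ∈ Ideal.span {D.F} ⊔ Ideal.span {D.α}) : a ∈ D.J := by
  have key : ∀ n : ℕ, ∀ a : SS k, a * D.β ^ n ∈ D.J → a ∈ D.J := by
    intro n
    induction n with
    | zero =>
      intro a h
      simpa using h
    | succ n ih =>
      intro a h
      apply ih
      apply D.hP
      rwa [mul_assoc, ← pow_succ]
  apply key n
  rw [D.hJ]
  rwa [mul_assoc, ← pow_succ]

/-- leading coefficients of relations -/
theorem coeff_mem {p : Polynomial (SS k)} {n : ℕ} (h0 : D.eps p = 0) (hn : p.natDegree ≤ n)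
    (hn1 : 1 ≤ n) : p.coeff n ∈ D.J := by
  obtain ⟨m, rfl⟩ : ∃ m, n = m + 1 := ⟨n - 1, by omega⟩
  apply D.pow_mem (n := m)
  have h1 : D.eps p = ∑ i ∈ Finset.range (m + 1 + 1), D.phi (p.coeff i) * D.om ^ i := by
    rw [eps]
    exact Polynomial.eval₂_eq_sum_range' _ (by omega) _
  have h2 : D.phi (∑ i ∈ Finset.range (m + 1 + 1),
      p.coeff i * D.β ^ i * D.α ^ (m + 1 - i)) = 0 := by
    have h3 : D.phi (∑ i ∈ Finset.range (m + 1 + 1), p.coeff i * D.β ^ i * D.α ^ (m + 1 - i)) =
        D.phi D.α ^ (m + 1) * D.eps p := by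
      rw [h1, map_sum, Finset.mul_sum]
      refine Finset.sum_congr rfl fun i hi => ?_
      rw [Finset.mem_range] at hi
      rw [map_mul, map_mul, map_pow, map_pow, ← D.alpha_om, mul_pow]
      have h4 : D.phi D.α ^ (m + 1) = D.phi D.α ^ i * D.phi D.α ^ (m + 1 - i) := by
        rw [← pow_add]
        congr 1
        omega
      rw [h4]
      ring
    rw [h3, h0, mul_zero]
  rw [phi_eq_zero] at h2
  rw [Finset.sum_range_succ] at h2
  have h3 : D.α ∣ ∑ i ∈ Finset.range (m + 1), p.coeff i * D.β ^ i * D.α ^ (m + 1 - i) := by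
    refine Finset.dvd_sum fun i hi => ?_
    rw [Finset.mem_range] at hi
    exact Dvd.dvd.mul_left (dvd_pow_self _ (by omega)) _
  rw [Nat.sub_self, pow_zero, mul_one] at h2
  have h4 : p.coeff (m + 1) * D.β ^ (m + 1) =
      (∑ i ∈ Finset.range (m + 1), p.coeff i * D.β ^ i * D.α ^ (m + 1 - i) +
        p.coeff (m + 1) * D.β ^ (m + 1)) -
      ∑ i ∈ Finset.range (m + 1), p.coeff i * D.β ^ i * D.α ^ (m + 1 - i) := by ring
  rw [h4]
  exact Ideal.sub_mem _ (Ideal.mem_sup_left (Ideal.mem_span_singleton.2 h2))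
    (Ideal.mem_sup_right (Ideal.mem_span_singleton.2 h3))

theorem exists_c {a : SS k} (ha : a ∈ D.J) : ∃ c, D.phi a * D.om = D.phi c := by
  rw [D.hJ] at ha
  obtain ⟨y, hy, z, hz, h⟩ := Submodule.mem_sup.1 ha
  obtain ⟨u, rfl⟩ := Ideal.mem_span_singleton'.1 hy
  obtain ⟨c, rfl⟩ := Ideal.mem_span_singleton'.1 hz
  refine ⟨c, ?_⟩
  have h1 : D.phi D.α * (D.phi a * D.om) = D.phi D.α * D.phi c := by
    rw [mul_left_comm, D.alpha_om, ← map_mul, ← h, map_add, map_mul, map_mul,
      D.phi_eq_zero.2 dvd_rfl, mul_zero, zero_add, mul_comm]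
  exact mul_left_cancel₀ D.phi_alpha h1

theorem mem_J_of {a c : SS k} (h : D.phi a * D.om = D.phi c) : a ∈ D.J := by
  rw [D.hJ]
  have h1 : D.phi (a * D.β - c * D.α) = 0 := by
    rw [map_sub, map_mul, map_mul, ← D.alpha_om, ← h]
    ring
  rw [phi_eq_zero] at h1
  have h2 : a * D.β = (a * D.β - c * D.α) + c * D.α := by ring
  rw [h2]
  exact Ideal.add_mem _ (Ideal.mem_sup_left (Ideal.mem_span_singleton.2 h1))
    (Ideal.mem_sup_right (Ideal.mem_span_singleton.2 (dvd_mul_left _ _)))

theorem lin_mem_I {a c : SS k} : X 0 * iot a - iot c ∈ D.I ↔ D.phi a * D.om = D.phi c := by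
  rw [mem_I, map_sub, map_mul, ee_w, ee_iot, ee_iot, map_sub, map_mul, eps_X, eps_C, eps_C,
    sub_eq_zero, mul_comm]

/-- induction on the degree in `w` -/
theorem red {p : Polynomial (SS k)} {n : ℕ} (hn : p.natDegree ≤ n + 1) {a c : SS k}
    (ha : p.coeff (n + 1) = a) :
    (p - (Polynomial.C a * Polynomial.X - Polynomial.C c) * Polynomial.X ^ n).natDegree ≤ n := by
  rw [Polynomial.natDegree_le_iff_coeff_eq_zero]
  intro m hm
  rw [sub_mul, mul_assoc, ← pow_succ', Polynomial.coeff_sub, Polynomial.coeff_sub,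
    Polynomial.coeff_C_mul_X_pow, Polynomial.coeff_C_mul_X_pow, if_neg (by omega : ¬ m = n),
    sub_zero]
  split_ifs with h
  · rw [h, ha, sub_self]
  · rw [sub_zero]
    exact Polynomial.coeff_eq_zero_of_natDegree_lt (by omega)

/-- generation of the ideal of the curve -/
theorem le_of_gen {L : Ideal (RR k)} (hFL : iot D.F ∈ L)
    (hJL : ∀ a ∈ D.J, ∃ c, D.phi a * D.om = D.phi c ∧ X 0 * iot a - iot c ∈ L) : D.I ≤ L := by
  have key : ∀ n : ℕ, ∀ f : RR k, (ee f).natDegree ≤ n → f ∈ D.I → f ∈ L := by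
    intro n
    induction n with
    | zero =>
      intro f hf hfI
      rw [Polynomial.natDegree_le_iff_coeff_eq_zero] at hf
      have h1 : ee f = Polynomial.C ((ee f).coeff 0) := by
        ext i
        rcases Nat.eq_zero_or_pos i with h | h
        · rw [h, Polynomial.coeff_C_zero]
        · rw [hf i h, Polynomial.coeff_C_of_ne_zero (by omega)]
      have h2 : f = iot ((ee f).coeff 0) := by
        apply ee.injective
        rw [ee_iot]
        exact h1
      rw [h2] at hfI ⊢
      rw [iot_mem_I] at hfI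
      obtain ⟨u, hu⟩ := hfI
      rw [hu, map_mul]
      exact L.mul_mem_right _ hFL
    | succ n ih =>
      intro f hf hfI
      have h1 := D.coeff_mem (D.mem_I.1 hfI) hf (by omega)
      obtain ⟨c, hc, hcL⟩ := hJL _ h1
      set a := (ee f).coeff (n + 1) with ha
      have h2 : f = (f - (X 0 * iot a - iot c) * X 0 ^ n) + (X 0 * iot a - iot c) * X 0 ^ n := by
        ring
      rw [h2]
      refine L.add_mem (ih _ ?_ ?_) (L.mul_mem_right _ hcL)
      · rw [map_sub, map_mul, map_sub, map_mul, map_pow, ee_w, ee_iot, ee_iot,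
          mul_comm Polynomial.X]
        exact red hf ha.symm
      · exact D.I.sub_mem hfI (D.I.mul_mem_right _ (D.lin_mem_I.2 hc))
  intro f hf
  exact key _ f le_rfl hf

/-- if `w f` is congruent to an element of `k[x,y,z]` then `f` is congruent to an element of
`J` -/
theorem exists_j {f : RR k} {g : SS k} (h : X 0 * f - iot g ∈ D.I) :
    ∃ j ∈ D.J, f - iot j ∈ D.I := by
  have key : ∀ n : ℕ, ∀ f : RR k, (ee f).natDegree ≤ n → X 0 * f - iot g ∈ D.I →
      ∃ j ∈ D.J, f - iot j ∈ D.I := by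
    intro n
    induction n with
    | zero =>
      intro f hf hfI
      rw [Polynomial.natDegree_le_iff_coeff_eq_zero] at hf
      have h1 : ee f = Polynomial.C ((ee f).coeff 0) := by
        ext i
        rcases Nat.eq_zero_or_pos i with h | h
        · rw [h, Polynomial.coeff_C_zero]
        · rw [hf i h, Polynomial.coeff_C_of_ne_zero (by omega)]
      have h2 : f = iot ((ee f).coeff 0) := by
        apply ee.injective
        rw [ee_iot]
        exact h1
      refine ⟨(ee f).coeff 0, ?_, ?_⟩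
      · rw [h2] at hfI
        exact D.mem_J_of (D.lin_mem_I.1 hfI)
      · rw [← h2, sub_self]
        exact D.I.zero_mem
    | succ n ih =>
      intro f hf hfI
      have h0 : (ee (X 0 * f - iot g)).natDegree ≤ n + 1 + 1 := by
        rw [map_sub, map_mul, ee_w, ee_iot]
        refine (Polynomial.natDegree_sub_C).trans_le ?_
        refine (Polynomial.natDegree_mul_le).trans ?_
        have := Polynomial.natDegree_X_le (R := SS k)
        omega
      have h1 := D.coeff_mem (D.mem_I.1 hfI) h0 (by omega)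
      rw [map_sub, map_mul, ee_w, ee_iot, Polynomial.coeff_sub, Polynomial.coeff_X_mul,
        Polynomial.coeff_C_of_ne_zero (by omega), sub_zero] at h1
      obtain ⟨c, hc⟩ := D.exists_c h1
      set a := (ee f).coeff (n + 1) with ha
      have hl := D.lin_mem_I.2 hc
      obtain ⟨j, hj, hj2⟩ := ih (f - (X 0 * iot a - iot c) * X 0 ^ n) (by
        rw [map_sub, map_mul, map_sub, map_mul, map_pow, ee_w, ee_iot, ee_iot,
          mul_comm Polynomial.X]
        exact red hf ha.symm) (by
        have : X 0 * (f - (X 0 * iot a - iot c) * X 0 ^ n) - iot g =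
          (X 0 * f - iot g) - (X 0 * iot a - iot c) * (X 0 * X 0 ^ n) := by ring
        rw [this]
        exact D.I.sub_mem hfI (D.I.mul_mem_right _ hl))
      refine ⟨j, hj, ?_⟩
      have : f - iot j = (f - (X 0 * iot a - iot c) * X 0 ^ n - iot j) +
        (X 0 * iot a - iot c) * X 0 ^ n := by ring
      rw [this]
      exact D.I.add_mem hj2 (D.I.mul_mem_right _ hl)
  exact key _ f le_rfl h

/-- the linear relation -/
theorem G_mem_I : X 0 * iot D.α - iot D.β ∈ D.I := by
  rw [lin_mem_I, D.alpha_om]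

theorem pseudo (f : RR k) : ∃ (N : ℕ) (g : SS k),
    iot D.α ^ N * f - iot g ∈ Ideal.span {X 0 * iot D.α - iot D.β} := by
  induction f using MvPolynomial.induction_on with
  | C a =>
    refine ⟨0, C a, ?_⟩
    rw [pow_zero, one_mul, iot, rename_C, sub_self]
    exact Submodule.zero_mem _
  | add p q hp hq =>
    obtain ⟨N, g, h1⟩ := hp
    obtain ⟨M, g', h2⟩ := hq
    refine ⟨N + M, D.α ^ M * g + D.α ^ N * g', ?_⟩
    have : iot D.α ^ (N + M) * (p + q) - iot (D.α ^ M * g + D.α ^ N * g') =
        iot D.α ^ M * (iot D.α ^ N * p - iot g) + iot D.α ^ N * (iot D.α ^ M * q - iot g') := by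
      rw [map_add, map_mul, map_mul, map_pow, map_pow]
      ring
    rw [this]
    exact Ideal.add_mem _ (Ideal.mul_mem_left _ _ h1) (Ideal.mul_mem_left _ _ h2)
  | mul_X p i hp =>
    obtain ⟨N, g, h1⟩ := hp
    refine Fin.cases ?_ ?_ i
    · refine ⟨N + 1, g * D.β, ?_⟩
      have : iot D.α ^ (N + 1) * (p * X 0) - iot (g * D.β) =
          (iot D.α * X 0) * (iot D.α ^ N * p - iot g) +
            iot g * (X 0 * iot D.α - iot D.β) := by
        rw [map_mul]
        ring
      rw [this]
      exact Ideal.add_mem _ (Ideal.mul_mem_left _ _ h1)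
        (Ideal.mul_mem_left _ _ (Ideal.mem_span_singleton_self _))
    · intro i
      refine ⟨N, g * X i, ?_⟩
      have : iot D.α ^ N * (p * X i.succ) - iot (g * X i) =
          X i.succ * (iot D.α ^ N * p - iot g) := by
        rw [map_mul]
        have h2 : (iot (X i) : RR k) = X i.succ := by rw [iot, rename_X]
        rw [h2]
        ring
      rw [this]
      exact Ideal.mul_mem_left _ _ h1

theorem hom_I {g a : ℕ} (hFg : D.F.IsHomogeneous g) (hαa : D.α.IsHomogeneous a)
    (hβa : D.β.IsHomogeneous (a + 1)) : Hom D.I := by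
  intro f hf n
  obtain ⟨N, q, h1⟩ := D.pseudo f
  have hG : Ideal.span {X 0 * iot D.α - iot D.β} ≤ D.I := by
    rw [Ideal.span_singleton_le_iff_mem]
    exact D.G_mem_I
  have h2 : iot q ∈ D.I := by
    have : iot q = iot D.α ^ N * f - (iot D.α ^ N * f - iot q) := by ring
    rw [this]
    exact D.I.sub_mem (D.I.mul_mem_left _ hf) (hG h1)
  rw [iot_mem_I] at h2
  have h3 : iot D.α ^ N * f ∈ Ideal.span {iot D.F} ⊔ Ideal.span {X 0 * iot D.α - iot D.β} := by
    have : iot D.α ^ N * f = iot q + (iot D.α ^ N * f - iot q) := by ring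
    rw [this]
    refine Submodule.add_mem_sup ?_ h1
    rw [Ideal.mem_span_singleton]
    exact map_dvd iot h2
  have hGh : (X 0 * iot D.α - iot D.β : RR k).IsHomogeneous (a + 1) := by
    refine IsHomogeneous.sub ?_ (iot_hom hβa)
    rw [add_comm]
    exact (isHomogeneous_X k 0).mul (iot_hom hαa)
  have h4 := ((Hom.span (iot_hom hFg)).sup (Hom.span hGh)) _ h3 (a * N + n)
  rw [hc_mul ((iot_hom hαa).pow N)] at h4
  have h5 : iot D.α ^ N * homogeneousComponent n f ∈ D.I := by
    refine (sup_le ?_ hG) h4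
    rw [Ideal.span_singleton_le_iff_mem]
    exact D.F_mem_I
  have hp := D.prime_I
  rcases hp.mem_or_mem h5 with h6 | h6
  · exact absurd (D.iot_mem_I.1 (hp.mem_of_pow_mem _ h6)) D.hα
  · exact h6

end CD

end

end Pool.Agent.Helper95.ME
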