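import Pool.Agent.Helper95.ME.Setup

/-!
Inclusions between the ideals of two curves.
-/

set_option autoImplicit false

namespace Pool.Agent.Helper95.ME

open MvPolynomial Module Pool.Agent.Helper95.MI

section

variable {k : Type*} [Field k]

theorem reg_al {v F : SS k} {b : ℕ → SS k} {n : ℕ} (hb : ∀ i < n, Prime (b i))
    (hd : ∀ i < n, ¬ b i ∣ F) (hv : ∀ i < n, Reg v (Ideal.span {F} ⊔ Ideal.span {b i})) :
    Reg v (Ideal.span {F} ⊔ Ideal.span {al b n}) := by
  induction n with
  | zero =>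
    intro f _
    rw [al, Finset.prod_range_zero, Ideal.span_singleton_one, sup_top_eq]
    exact Submodule.mem_top
  | succ n ih =>
    have ih' := ih (fun i hi => hb i (by omega)) (fun i hi => hd i (by omega))
      (fun i hi => hv i (by omega))
    intro f hf
    obtain ⟨u, w, h1⟩ := mem_sup_span_iff.1 hf
    rw [al_succ] at h1
    have h2 : f * v ∈ Ideal.span {F} ⊔ Ideal.span {b n} := by
      rw [mem_sup_span_iff]
      exact ⟨u, al b n * w, by rw [h1]; ring⟩
    obtain ⟨u', f', h3⟩ := mem_sup_span_iff.1 (hv n (by omega) f h2)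
    have h4 : b n ∣ F * (u - u' * v) := by
      refine ⟨f' * v - al b n * w, ?_⟩
      rw [h3] at h1
      linear_combination -h1
    obtain ⟨y, hy⟩ := ((hb n (by omega)).dvd_or_dvd h4).resolve_left (hd n (by omega))
    have h5 : f' * v ∈ Ideal.span {F} ⊔ Ideal.span {al b n} := by
      rw [mem_sup_span_iff]
      refine ⟨y, w, ?_⟩
      apply mul_left_cancel₀ (hb n (by omega)).ne_zero
      rw [h3] at h1
      linear_combination h1 + F * hy
    obtain ⟨p, q, h6⟩ := mem_sup_span_iff.1 (ih' f' h5)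
    rw [mem_sup_span_iff, al_succ]
    exact ⟨u' + b n * p, q, by rw [h3, h6]; ring⟩

namespace Setup

variable (T : Setup k)

theorem full : ∀ n, T.lam 0 ≤ n → ∀ g ∈ Jc T.b T.gg n, ∃ u, ∃ g0 ∈ Jc T.b T.gg (T.lam 0),
    g = T.F * u + (∏ i ∈ Finset.Ico (T.lam 0) n, T.b i) * g0 := by
  intro n hn
  induction n, hn using Nat.le_induction with
  | base =>
    intro g hg
    refine ⟨0, g, hg, ?_⟩
    rw [Finset.Ico_self, Finset.prod_empty]
    ring
  | succ n hn ih =>
    intro g hg
    obtain ⟨u, v, hv, h1⟩ := mem_Jc_succ.1 hg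
    obtain ⟨u', g0, hg0, h2⟩ := ih v hv
    have h3 : T.gg n = T.F := by
      rw [gg, if_neg]
      rw [T.c_pos_iff]
      omega
    refine ⟨u + T.b n * u', g0, hg0, ?_⟩
    rw [h1, h2, h3, Finset.prod_Ico_succ_top hn]
    ring

theorem al_eq : al T.b T.τ = al T.b (T.lam 0) * ∏ i ∈ Finset.Ico (T.lam 0) T.τ, T.b i := by
  unfold al
  rw [Finset.prod_range_mul_prod_Ico _ T.hlam]

theorem reg_part {v : SS k}
    (hv : ∀ n < T.τ, Reg v (Ideal.span {T.F} ⊔ Ideal.span {colF (T.q n)})) :
    Reg v (Ideal.span {T.F} ⊔ Ideal.span {al T.b (T.lam 0)}) :=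
  reg_al (fun i _ => T.prime_b i) (fun _ _ => not_col_dvd T.hev)
    (fun i hi => hv i (lt_of_lt_of_le hi T.hlam))

/-- the pair lemma: the second curve passes through the intersection of the first curve with
the cone over the second plane curve -/
theorem pair_le {a : k} (ha : T.Good a) (D : CD k) {U : SS k} (hE : T.E = D.F)
    (hβ : T.β1 = D.β * U) (hα : ∏ i ∈ Finset.Ico (T.lam 0) T.τ, T.b i = D.α * U) :
    (T.cd ha).I ≤ D.I ⊔ Ideal.span {iot T.F} := by
  apply (T.cd ha).le_of_gen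
  · exact Ideal.mem_sup_right (Ideal.mem_span_singleton_self _)
  · intro g hg
    have hg' : g ∈ Jc T.b T.gg T.τ := hg
    obtain ⟨u, g0, hg0, h1⟩ := T.full T.τ T.hlam g hg'
    rw [(T.cols ha).mem_Jc_iff _ T.hlam] at hg0
    -- the sum in `β`
    set V := ∑ j ∈ Finset.range (T.c 0 + 1), algebraMap k (SS k) a ^ (j + 1) *
      (T.eta ^ (T.dd - j - T.lam j) * (Pr T.r 0 j * al T.b (T.lam j))) with hV
    have hbet : T.bet a = T.β1 * al T.b (T.lam 0) + T.E * V := by
      rw [bet, hV, Finset.mul_sum]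
      congr 1
      refine Finset.sum_congr rfl fun j _ => ?_
      rw [tm]
      ring
    obtain ⟨p, s, h2⟩ := mem_sup_span_iff.1 hg0
    have h3 : (g0 * V) * T.E ∈ Ideal.span {T.F} ⊔ Ideal.span {al T.b (T.lam 0)} := by
      rw [mem_sup_span_iff]
      refine ⟨p, s - g0 * T.β1, ?_⟩
      rw [hbet] at h2
      linear_combination h2
    obtain ⟨p', s', h4⟩ := mem_sup_span_iff.1 (T.reg_part T.hEreg _ h3)
    set Pi0 := ∏ i ∈ Finset.Ico (T.lam 0) T.τ, T.b i with hPi0
    have h5 : (Pi0 * g0) * T.bet a = al T.b T.τ * (g0 * T.β1 + T.E * s') +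
        T.F * (T.E * Pi0 * p') := by
      rw [T.al_eq, ← hPi0, hbet]
      linear_combination (Pi0 * T.E) * h4
    have h6 : (T.cd ha).phi (Pi0 * g0) * (T.cd ha).om = (T.cd ha).phi (g0 * T.β1 + T.E * s') := by
      apply mul_left_cancel₀ (T.cd ha).phi_alpha
      rw [mul_left_comm, (T.cd ha).alpha_om]
      have h8 : (T.cd ha).phi T.F = 0 := (T.cd ha).phi_eq_zero.2 dvd_rfl
      change (T.cd ha).phi (Pi0 * g0) * (T.cd ha).phi (T.bet a) =
        (T.cd ha).phi (al T.b T.τ) * (T.cd ha).phi (g0 * T.β1 + T.E * s')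
      rw [← map_mul, h5, map_add, map_mul (T.cd ha).phi T.F, h8, zero_mul, add_zero, map_mul]
    refine ⟨g0 * T.β1 + T.E * s', ?_, ?_⟩
    · rw [← h6, h1, map_add, map_mul (T.cd ha).phi T.F]
      have h8 : (T.cd ha).phi T.F = 0 := (T.cd ha).phi_eq_zero.2 dvd_rfl
      rw [h8, zero_mul, zero_add]
    · have h9 : X 0 * iot g - iot (g0 * T.β1 + T.E * s') =
          (X 0 * iot (Pi0 * g0) - iot (g0 * T.β1 + T.E * s')) + iot T.F * (X 0 * iot u) := by
        rw [h1, map_add, map_mul iot T.F]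
        ring
      rw [h9]
      refine Submodule.add_mem_sup ?_
        (Ideal.mul_mem_right _ _ (Ideal.mem_span_singleton_self _))
      rw [D.lin_mem_I, hα, hβ, hE, map_add, map_mul D.phi D.F, D.phi_eq_zero.2 dvd_rfl, zero_mul,
        add_zero]
      have h10 : D.phi (D.α * U * g0) * D.om = D.phi (U * g0) * (D.phi D.α * D.om) := by
        rw [map_mul, map_mul, map_mul]
        ring
      rw [h10, D.alpha_om, ← map_mul]
      congr 1
      ring

/-- the second curve is cut out by one equation over the plane curve -/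
theorem ci_le {a : k} (ha : T.Good a) (D : CD k) (h0 : T.lam 0 = 0) (hF : D.F = T.F) :
    (T.cd ha).I ≤ D.I ⊔ Ideal.span {X 0 * iot (al T.b T.τ) - iot (T.bet a)} := by
  apply (T.cd ha).le_of_gen
  · change iot T.F ∈ _
    rw [← hF]
    exact Ideal.mem_sup_left D.F_mem_I
  · intro g hg
    have hg' : g ∈ Jc T.b T.gg T.τ := hg
    obtain ⟨u, g0, -, h1⟩ := T.full T.τ T.hlam g hg'
    have h2 : ∏ i ∈ Finset.Ico (T.lam 0) T.τ, T.b i = al T.b T.τ := by
      rw [h0, al, Finset.range_eq_Ico]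
    rw [h2] at h1
    have h8 : (T.cd ha).phi T.F = 0 := (T.cd ha).phi_eq_zero.2 dvd_rfl
    refine ⟨T.bet a * g0, ?_, ?_⟩
    · have h3 : (T.cd ha).phi (al T.b T.τ) * (T.cd ha).om = (T.cd ha).phi (T.bet a) :=
        (T.cd ha).alpha_om
      rw [h1, map_add, map_mul (T.cd ha).phi T.F, h8, zero_mul, zero_add, map_mul, map_mul, ← h3]
      ring
    · have h9 : X 0 * iot g - iot (T.bet a * g0) = iot T.F * (X 0 * iot u) +
          (X 0 * iot (al T.b T.τ) - iot (T.bet a)) * iot g0 := by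
        rw [h1, map_add, map_mul iot T.F, map_mul, map_mul]
        ring
      rw [h9]
      refine Submodule.add_mem_sup (Ideal.mul_mem_right _ _ ?_)
        (Ideal.mul_mem_right _ _ (Ideal.mem_span_singleton_self _))
      rw [← hF]
      exact D.F_mem_I

end Setup

end

end Pool.Agent.Helper95.ME
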