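import Pool.Agent.Helper95.ME.Grid
import Pool.Agent.Helper59.ME.GenReg

/-!
Construction of curves from Young diagrams.
-/

set_option autoImplicit false

namespace Pool.Agent.Helper95.ME

open MvPolynomial Module Pool.Agent.Helper95.MI

section

variable {k : Type*} [Field k]

/-- the product of the rows with index in `[m, n)` -/
noncomputable def Pr (r : ℕ → k) (m n : ℕ) : SS k := ∏ i ∈ Finset.Ico m n, rowF (r i)

theorem Pr_mul (r : ℕ → k) {l m n : ℕ} (h1 : l ≤ m) (h2 : m ≤ n) :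
    Pr r l m * Pr r m n = Pr r l n := by
  unfold Pr
  exact Finset.prod_Ico_consecutive _ h1 h2

theorem Pr_hom (r : ℕ → k) (m n : ℕ) : (Pr r m n).IsHomogeneous (n - m) := by
  have := rows_hom r (Finset.Ico m n)
  rwa [Nat.card_Ico] at this

theorem ev1_Pr (r : ℕ → k) (m n : ℕ) : ev1 (Pr r m n) = 1 := ev1_rows _ _

/-- the data from which the curves are constructed -/
structure Setup (k : Type*) [Field k] where
  g : ℕ
  τ : ℕ
  dd : ℕ
  dE : ℕ
  r : ℕ → k
  q : ℕ → k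
  qs : k
  lam : ℕ → ℕ
  c : ℕ → ℕ
  F : SS k
  F1 : SS k
  E : SS k
  β1 : SS k
  hYD : ∀ n j, j < c n ↔ n < lam j
  hlam : lam 0 ≤ τ
  hcg : ∀ n, 0 < c n → c n + n + 1 ≤ g
  hr : Function.Injective r
  hq : ∀ m n, m < lam 0 → m < n → n < τ → q m ≠ q n
  hqs : ∀ n < τ, q n ≠ qs
  hF : Prime F
  hFg : F.IsHomogeneous g
  hFdec : F = Pr r 0 g - al (fun n => colF (q n)) (lam 0) * F1
  hev : ev1 F ≠ 0
  hE : E.IsHomogeneous dE
  hEreg : ∀ n < τ, Reg E (Ideal.span {F} ⊔ Ideal.span {colF (q n)})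
  hβ1 : β1.IsHomogeneous (τ + 1 - lam 0)
  hD : dd + dE = τ + 1
  hjD : ∀ j ≤ c 0, j + lam j ≤ dd

namespace Setup

variable (T : Setup k)

/-- the columns -/
noncomputable def b (n : ℕ) : SS k := colF (T.q n)

/-- the lifts -/
noncomputable def gg (n : ℕ) : SS k := if 0 < T.c n then Pr T.r (T.c n) T.g else T.F

theorem hFdec' : T.F = Pr T.r 0 T.g - al T.b (T.lam 0) * T.F1 := T.hFdec

theorem c_pos_iff (n : ℕ) : 0 < T.c n ↔ n < T.lam 0 := T.hYD n 0

theorem c_anti {m n : ℕ} (h : m ≤ n) : T.c n ≤ T.c m := by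
  by_contra hcon
  push Not at hcon
  have h1 := (T.hYD n (T.c m)).1 hcon
  have h2 := (T.hYD m (T.c m)).2 (by omega)
  omega

theorem lam_anti {m n : ℕ} (h : m ≤ n) : T.lam n ≤ T.lam m := by
  by_contra hcon
  push Not at hcon
  have h1 := (T.hYD (T.lam m) n).2 hcon
  have h2 := (T.hYD (T.lam m) m).1 (by omega)
  omega

theorem c_le (n : ℕ) : T.c n ≤ T.g := by
  rcases Nat.eq_zero_or_pos (T.c n) with h | h
  · omega
  · have := T.hcg n h
    omega

theorem lam_c_le (n : ℕ) : T.lam (T.c n) ≤ n := by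
  by_contra hcon
  push Not at hcon
  have := (T.hYD n (T.c n)).2 hcon
  omega

theorem prime_b (n : ℕ) : Prime (T.b n) := prime_col _

theorem ev1_gg (n : ℕ) : ev1 (T.gg n) ≠ 0 := by
  unfold gg
  split_ifs
  · rw [ev1_Pr]
    exact one_ne_zero
  · exact T.hev

theorem al_dvd_of_lt {n : ℕ} {j : ℕ} (h : j < T.c n) : al T.b (n + 1) ∣ al T.b (T.lam j) :=
  al_dvd _ ((T.hYD n j).1 h)

/-- the plane curve modulo a column -/
theorem F_congr {n : ℕ} : T.F - Pr T.r 0 (T.c n) * T.gg n ∈ Ideal.span {T.b n} := by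
  unfold gg
  split_ifs with h
  · rw [Pr_mul _ (Nat.zero_le _) (T.c_le n), hFdec', Ideal.mem_span_singleton]
    have h1 : T.b n ∣ al T.b (T.lam 0) := by
      refine dvd_trans ?_ (T.al_dvd_of_lt h)
      rw [al_succ]
      exact dvd_mul_left _ _
    have h2 : Pr T.r 0 T.g - al T.b (T.lam 0) * T.F1 - Pr T.r 0 T.g =
        -(al T.b (T.lam 0) * T.F1) := by ring
    rw [h2]
    exact (dvd_mul_of_dvd_left h1 _).neg_right
  · have h1 : T.c n = 0 := by omega
    have h2 : Pr T.r 0 (T.c n) = 1 := by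
      rw [h1, Pr, Finset.Ico_self, Finset.prod_empty]
    rw [h2, one_mul, sub_self]
    exact Submodule.zero_mem _

theorem F_mem_Jc : ∀ n, T.F ∈ Jc T.b T.gg n := by
  intro n
  rcases n with _ | n
  · exact Submodule.mem_top
  · by_cases h : 0 < T.c n
    · have h1 : T.gg n = Pr T.r (T.c n) T.g := by rw [gg, if_pos h]
      have h2 := gg_mem_Jc T.b T.gg n
      rw [hFdec']
      refine Ideal.sub_mem _ ?_ ?_
      · rw [← Pr_mul T.r (Nat.zero_le _) (T.c_le n), ← h1]
        exact Ideal.mul_mem_left _ _ h2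
      · refine Ideal.mul_mem_right _ _ ?_
        exact Ideal.mem_of_dvd _ (T.al_dvd_of_lt h) (al_mem_Jc _ _ _)
    · have h1 : T.gg n = T.F := by rw [gg, if_neg h]
      rw [← h1]
      exact gg_mem_Jc T.b T.gg n

theorem gg_mem (n : ℕ) : T.gg n ∈ Jc T.b T.gg n := by
  by_cases h : 0 < T.c n
  · have h1 : T.gg n = Pr T.r (T.c n) T.g := by rw [gg, if_pos h]
    rcases n with _ | n
    · exact Submodule.mem_top
    · have h2 := T.c_anti (Nat.le_succ n)
      have h0 : 0 < T.c n := lt_of_lt_of_le h h2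
      have h3 : T.gg n = Pr T.r (T.c n) T.g := by rw [gg, if_pos h0]
      rw [h1, ← Pr_mul T.r h2 (T.c_le n), ← h3]
      exact Ideal.mul_mem_left _ _ (gg_mem_Jc T.b T.gg n)
  · have h1 : T.gg n = T.F := by rw [gg, if_neg h]
    rw [h1]
    exact T.F_mem_Jc n

theorem gg_hom (n : ℕ) : (T.gg n).IsHomogeneous (T.g - T.c n) := by
  unfold gg
  split_ifs with h
  · exact Pr_hom _ _ _
  · have h1 : T.c n = 0 := by omega
    rw [h1, Nat.sub_zero]
    exact T.hFg

theorem b_hom (n : ℕ) : (T.b n).IsHomogeneous 1 := colF_hom _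

/-- the auxiliary linear form -/
noncomputable def eta : SS k := colF T.qs

/-- the terms of `β` -/
noncomputable def tm (j : ℕ) : SS k :=
  T.E * (T.eta ^ (T.dd - j - T.lam j) * (Pr T.r 0 j * al T.b (T.lam j)))

/-- the family of forms `β` -/
noncomputable def bet (a : k) : SS k :=
  T.β1 * al T.b (T.lam 0) +
    ∑ j ∈ Finset.range (T.c 0 + 1), algebraMap k (SS k) a ^ (j + 1) * T.tm j

/-- the coefficients of the residual forms -/
noncomputable def uu (n : ℕ) : ℕ → SS k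
  | 0 => if T.c n = 0 then T.β1 * al T.b (T.lam 0) else 0
  | j + 1 => if T.c n ≤ j then
      T.E * (T.eta ^ (T.dd - j - T.lam j) * (Pr T.r (T.c n) j * al T.b (T.lam j))) else 0

/-- the residual forms -/
noncomputable def RR' (n : ℕ) (a : k) : SS k :=
  ∑ j ∈ Finset.range (T.c 0 + 2), algebraMap k (SS k) a ^ j * T.uu n j

theorem bet_congr (n : ℕ) (a : k) :
    T.bet a - Pr T.r 0 (T.c n) * T.RR' n a ∈ Ideal.span {T.b n} := by
  have h1 : T.bet a - Pr T.r 0 (T.c n) * T.RR' n a =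
      (T.β1 * al T.b (T.lam 0) - Pr T.r 0 (T.c n) * T.uu n 0) +
      ∑ j ∈ Finset.range (T.c 0 + 1), algebraMap k (SS k) a ^ (j + 1) *
        (T.tm j - Pr T.r 0 (T.c n) * T.uu n (j + 1)) := by
    unfold bet RR'
    rw [Finset.sum_range_succ' _ (T.c 0 + 1), pow_zero, one_mul, mul_add, Finset.mul_sum]
    have h2 : ∑ j ∈ Finset.range (T.c 0 + 1), algebraMap k (SS k) a ^ (j + 1) *
        (T.tm j - Pr T.r 0 (T.c n) * T.uu n (j + 1)) =
        ∑ j ∈ Finset.range (T.c 0 + 1), algebraMap k (SS k) a ^ (j + 1) * T.tm j -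
        ∑ j ∈ Finset.range (T.c 0 + 1), Pr T.r 0 (T.c n) *
          (algebraMap k (SS k) a ^ (j + 1) * T.uu n (j + 1)) := by
      rw [← Finset.sum_sub_distrib]
      exact Finset.sum_congr rfl fun j _ => by ring
    rw [h2]
    ring
  have hdv : ∀ j, j < T.c n → T.b n ∣ al T.b (T.lam j) := by
    intro j hj
    refine dvd_trans ?_ (T.al_dvd_of_lt hj)
    rw [al_succ]
    exact dvd_mul_left _ _
  rw [h1]
  refine Ideal.add_mem _ ?_ (Ideal.sum_mem _ fun j _ => Ideal.mul_mem_left _ _ ?_)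
  · rw [uu]
    split_ifs with h
    · have h2 : Pr T.r 0 (T.c n) = 1 := by
        rw [h, Pr, Finset.Ico_self, Finset.prod_empty]
      rw [h2, one_mul, sub_self]
      exact Submodule.zero_mem _
    · rw [mul_zero, sub_zero]
      exact Ideal.mem_span_singleton.2 (dvd_mul_of_dvd_right (hdv 0 (by omega)) _)
  · rw [uu, tm]
    split_ifs with h
    · have h2 : T.E * (T.eta ^ (T.dd - j - T.lam j) * (Pr T.r 0 j * al T.b (T.lam j))) -
          Pr T.r 0 (T.c n) * (T.E * (T.eta ^ (T.dd - j - T.lam j) *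
            (Pr T.r (T.c n) j * al T.b (T.lam j)))) = 0 := by
        rw [← Pr_mul T.r (Nat.zero_le _) h]
        ring
      rw [h2]
      exact Submodule.zero_mem _
    · rw [mul_zero, sub_zero]
      refine Ideal.mem_span_singleton.2 ?_
      refine dvd_mul_of_dvd_right (dvd_mul_of_dvd_right (dvd_mul_of_dvd_right (hdv j ?_) _) _) _
      omega

/-- good parameters -/
def Good (a : k) : Prop := ∀ n < T.τ, Reg (T.RR' n a) (Ideal.span {T.gg n} ⊔ Ideal.span {T.b n})

theorem E_reg {n : ℕ} (hn : n < T.τ) : Reg T.E (Ideal.span {T.gg n} ⊔ Ideal.span {T.b n}) := by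
  have h1 := T.hEreg n hn
  have h2 : (Ideal.span {T.F} ⊔ Ideal.span {colF (T.q n)} : Ideal (SS k)) =
      Ideal.span {Pr T.r 0 (T.c n) * T.gg n} ⊔ Ideal.span {T.b n} := by
    obtain ⟨y, hy⟩ := Ideal.mem_span_singleton.1 (T.F_congr (n := n))
    apply le_antisymm
    · refine sup_le ?_ le_sup_right
      rw [Ideal.span_singleton_le_iff_mem, mem_sup_span_iff]
      exact ⟨1, y, by linear_combination hy⟩
    · change _ ≤ (Ideal.span {T.F} ⊔ Ideal.span {T.b n} : Ideal (SS k))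
      refine sup_le ?_ le_sup_right
      rw [Ideal.span_singleton_le_iff_mem, mem_sup_span_iff]
      exact ⟨1, -y, by linear_combination (-1 : SS k) * hy⟩
  rw [h2] at h1
  refine Reg.of_dvd (T.prime_b n) (not_col_dvd ?_) h1
  rw [ev1_Pr]
  exact one_ne_zero

theorem uu_reg {n : ℕ} (hn : n < T.τ) :
    Reg (T.uu n (T.c n + 1)) (Ideal.span {T.gg n} ⊔ Ideal.span {T.b n}) := by
  rw [uu, if_pos le_rfl]
  refine (T.E_reg hn).mul (Reg.mul (Reg.pow (reg_col (T.hqs n hn) (T.ev1_gg n)) _)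
    (Reg.mul ?_ (Reg.prod _ fun m hm => ?_)))
  · rw [Pr, Finset.Ico_self, Finset.prod_empty]
    exact Reg.one
  · rw [Finset.mem_range] at hm
    have h1 := T.lam_c_le n
    have h2 := T.lam_anti (Nat.zero_le (T.c n))
    exact reg_col (T.hq m n (by omega) (by omega) hn).symm (T.ev1_gg n)

theorem finite_not_good : {a : k | ¬ T.Good a}.Finite := by
  have h1 : {a : k | ¬ T.Good a} ⊆ ⋃ n ∈ Finset.range T.τ,
      {a : k | ¬ Reg (T.RR' n a) (Ideal.span {T.gg n} ⊔ Ideal.span {T.b n})} := by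
    intro a ha
    rw [Set.mem_ofPred_eq, Good] at ha
    push Not at ha
    obtain ⟨n, hn, h2⟩ := ha
    rw [Set.mem_iUnion₂]
    exact ⟨n, Finset.mem_range.2 hn, h2⟩
  refine Set.Finite.subset (Set.Finite.biUnion (Finset.finite_toSet _) fun n hn => ?_) h1
  have hn' : n < T.τ := Finset.mem_range.1 hn
  have h2 := T.c_anti (Nat.zero_le n)
  exact finite_bad _ (j₀ := T.c n + 1) (by omega) (T.uu n) (T.uu_reg hn')

theorem lam_le {j : ℕ} : T.lam j ≤ T.τ := (T.lam_anti (Nat.zero_le j)).trans T.hlam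

theorem gmul (n : ℕ) (a : k) :
    T.gg n * T.bet a ∈ Ideal.span {T.F} ⊔ Ideal.span {al T.b (n + 1)} := by
  unfold gg
  split_ifs with h
  · have hQ : Pr T.r 0 T.g ∈ Ideal.span {T.F} ⊔ Ideal.span {al T.b (n + 1)} := by
      have h1 : Pr T.r 0 T.g = T.F + al T.b (T.lam 0) * T.F1 := by
        rw [hFdec']
        ring
      rw [h1]
      refine Submodule.add_mem_sup (Ideal.mem_span_singleton_self _) ?_
      exact Ideal.mem_span_singleton.2 (dvd_mul_of_dvd_left (T.al_dvd_of_lt h) _)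
    unfold bet
    rw [mul_add, Finset.mul_sum]
    refine Ideal.add_mem _ ?_ (Ideal.sum_mem _ fun j _ => ?_)
    · refine Ideal.mem_sup_right (Ideal.mem_span_singleton.2 ?_)
      exact dvd_mul_of_dvd_right (dvd_mul_of_dvd_right (T.al_dvd_of_lt h) _) _
    · rw [mul_left_comm]
      refine Ideal.mul_mem_left _ _ ?_
      rw [tm]
      by_cases hj : j < T.c n
      · refine Ideal.mem_sup_right (Ideal.mem_span_singleton.2 ?_)
        exact dvd_mul_of_dvd_right (dvd_mul_of_dvd_right (dvd_mul_of_dvd_right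
          (dvd_mul_of_dvd_right (T.al_dvd_of_lt hj) _) _) _) _
      · have h1 := Pr_mul T.r (Nat.zero_le (T.c n)) (by omega : T.c n ≤ j)
        have h2 := Pr_mul T.r (Nat.zero_le (T.c n)) (T.c_le n)
        have h3 : Pr T.r (T.c n) T.g * (T.E * (T.eta ^ (T.dd - j - T.lam j) *
            (Pr T.r 0 j * al T.b (T.lam j)))) = Pr T.r 0 T.g * (T.E * (T.eta ^ (T.dd - j - T.lam j) *
            (Pr T.r (T.c n) j * al T.b (T.lam j)))) := by
          rw [← h1, ← h2]
          ring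
        rw [h3]
        exact Ideal.mul_mem_right _ _ hQ
  · exact Ideal.mem_sup_left (Ideal.mul_mem_right _ _ (Ideal.mem_span_singleton_self _))

theorem colon {a : k} (ha : T.Good a) {n : ℕ} (hn : n < T.τ) (f : SS k)
    (hf : f * T.bet a ∈ Ideal.span {T.F} ⊔ Ideal.span {T.b n}) :
    f ∈ Ideal.span {T.gg n} ⊔ Ideal.span {T.b n} := by
  apply ha n hn
  obtain ⟨u, v, h1⟩ := mem_sup_span_iff.1 hf
  obtain ⟨y, hy⟩ := Ideal.mem_span_singleton.1 (T.F_congr (n := n))
  obtain ⟨y', hy'⟩ := Ideal.mem_span_singleton.1 (T.bet_congr n a)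
  have h2 : T.b n ∣ Pr T.r 0 (T.c n) * (f * T.RR' n a - T.gg n * u) := by
    refine ⟨v - f * y' + y * u, ?_⟩
    linear_combination h1 - f * hy' + u * hy
  have h3 : ¬ T.b n ∣ Pr T.r 0 (T.c n) := by
    apply not_col_dvd
    rw [ev1_Pr]
    exact one_ne_zero
  obtain ⟨z, hz⟩ := ((T.prime_b n).dvd_or_dvd h2).resolve_left h3
  rw [mem_sup_span_iff]
  exact ⟨u, z, by linear_combination hz⟩

theorem bet_reg {a : k} (ha : T.Good a) {n : ℕ} (hn : n < T.τ) :
    Reg (T.bet a) (Ideal.span {T.gg n} ⊔ Ideal.span {T.b n}) := by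
  refine Reg.congr (Reg.mul ?_ (ha n hn)) (Ideal.mem_sup_right (T.bet_congr n a))
  unfold gg
  split_ifs with h
  · unfold Pr
    refine Reg.prod _ fun i hi => reg_rows _ fun i' hi' => ?_
    rw [Finset.mem_Ico] at hi hi'
    intro hcon
    have := T.hr hcon
    omega
  · have h1 : T.c n = 0 := by omega
    rw [h1, Pr, Finset.Ico_self, Finset.prod_empty]
    exact Reg.one

theorem cols {a : k} (ha : T.Good a) : Cols T.F (T.bet a) T.b T.gg T.τ where
  mem n _ := T.gg_mem n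
  prime n _ := T.prime_b n
  ndvd _ _ := not_col_dvd T.hev
  ndvd' n _ := not_col_dvd (T.ev1_gg n)
  gmul n _ := T.gmul n a
  colon n hn f hf := T.colon ha hn f hf

/-- the curve -/
noncomputable def cd {a : k} (ha : T.Good a) : CD k where
  F := T.F
  α := al T.b T.τ
  β := T.bet a
  J := Jc T.b T.gg T.τ
  hF := T.hF
  hα := by
    intro h
    obtain ⟨n, -, hn⟩ := T.hF.exists_mem_finset_dvd h
    exact not_dvd_col T.hF T.hev _ hn
  hJ := (T.cols ha).mem_Jc_iff T.τ le_rfl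
  hP := (T.cols ha).reg (fun n hn => T.bet_reg ha hn) T.τ le_rfl

theorem eta_reg {a : k} (ha : T.Good a) : Reg T.eta (T.cd ha).J :=
  (T.cols ha).reg (fun n hn => reg_col (T.hqs n hn) (T.ev1_gg n)) T.τ le_rfl

theorem bet_hom (a : k) : (T.bet a).IsHomogeneous (T.τ + 1) := by
  have hb := fun n => T.b_hom n
  have h0 := T.hlam
  unfold bet
  refine IsHomogeneous.add ?_ (IsHomogeneous.sum _ _ _ fun j hj => ?_)
  · have := T.hβ1.mul (al_hom (b := T.b) (n := T.lam 0) fun i _ => hb i)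
    rwa [show T.τ + 1 - T.lam 0 + T.lam 0 = T.τ + 1 by omega] at this
  · rw [Finset.mem_range] at hj
    have h1 := T.hjD j (by omega)
    have h2 := (isHomogeneous_C (Fin 3) a).pow (j + 1)
    have h3 := h2.mul (T.hE.mul (((colF_hom T.qs).pow (T.dd - j - T.lam j)).mul
      ((Pr_hom T.r 0 j).mul (al_hom (b := T.b) (n := T.lam j) fun i _ => hb i))))
    have h4 := T.hD
    have h5 : 0 * (j + 1) + (T.dE + (1 * (T.dd - j - T.lam j) + (j - 0 + T.lam j))) =
      T.τ + 1 := by omega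
    rw [h5] at h3
    exact h3

theorem al_hom' : (al T.b T.τ).IsHomogeneous T.τ := al_hom fun i _ => T.b_hom i

theorem hom_I {a : k} (ha : T.Good a) : Hom (T.cd ha).I :=
  (T.cd ha).hom_I T.hFg T.al_hom' (T.bet_hom a)

theorem regular [Infinite k] {a : k} (ha : T.Good a) :
    ∃ f g : RR k, (∃ a, 0 < a ∧ f.IsHomogeneous a) ∧
      (∃ b, 0 < b ∧ g.IsHomogeneous b) ∧ (∀ x, f * x ∈ (T.cd ha).I → x ∈ (T.cd ha).I) ∧
      ∀ x, g * x ∈ (T.cd ha).I ⊔ Ideal.span {f} → x ∈ (T.cd ha).I ⊔ Ideal.span {f} :=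
  (T.cd ha).regular (colF_hom T.qs) (not_dvd_col T.hF T.hev _) (T.eta_reg ha) (reg_z T.hev)

end Setup

end

end Pool.Agent.Helper95.ME
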