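import Pool.Agent.Helper95.ME.Pair
import Pool.Agent.Helper95.ME.EvConst
import Pool.Agent.Helper84.ME.HVec

/-!
Multiplicity at the vertex, and the curves as integral ACM curves.
-/

set_option autoImplicit false

namespace Pool.Agent.Helper95.ME

open MvPolynomial Module Pool.Agent.Helper95.MI

section

variable {k : Type*} [Field k]

theorem hom_mem_pow {f : SS k} {m n : ℕ} (hf : f.IsHomogeneous m) (h : n ≤ m) :
    f ∈ idealOfVars (Fin 3) k ^ n := by
  rw [mem_pow_idealOfVars_iff']
  intro x hx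
  exact hf.coeff_eq_zero (by omega)

theorem hc_pow {f : SS k} {m n : ℕ} (hf : f ∈ idealOfVars (Fin 3) k ^ n) (h : m < n) :
    homogeneousComponent m f = 0 := by
  rw [mem_pow_idealOfVars_iff'] at hf
  ext x
  rw [coeff_homogeneousComponent, coeff_zero]
  split_ifs with h1
  · exact hf x (by omega)
  · rfl

theorem iot_X (i : Fin 3) : (iot (X i) : RR k) = X i.succ := by rw [iot, rename_X]

theorem map_pow_vars (n : ℕ) :
    ext (idealOfVars (Fin 3) k ^ n) = (Ideal.span {X 1, X 2, X 3} : Ideal (RR k)) ^ n := by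
  have h1 : ext (idealOfVars (Fin 3) k) = (Ideal.span {X 1, X 2, X 3} : Ideal (RR k)) := by
    rw [ext, idealOfVars, Ideal.map_span]
    congr 1
    ext f
    constructor
    · rintro ⟨_, ⟨i, rfl⟩, rfl⟩
      rw [iot_X]
      fin_cases i
      · exact Or.inl rfl
      · exact Or.inr (Or.inl rfl)
      · exact Or.inr (Or.inr rfl)
    · rintro (h | h | h)
      · exact ⟨X 0, ⟨0, rfl⟩, by rw [iot_X, h]; rfl⟩
      · exact ⟨X 1, ⟨1, rfl⟩, by rw [iot_X, h]; rfl⟩
      · exact ⟨X 2, ⟨2, rfl⟩, by rw [iot_X, h]; rfl⟩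
  rw [← h1, ext, ext, Ideal.map_pow]

theorem hc_mem {J : Ideal (SS k)} (hJ : Hom (ext J)) {g : SS k} (hg : g ∈ J) (m : ℕ) :
    homogeneousComponent m g ∈ J := by
  have h := hJ _ (iot_mem_ext.2 hg) m
  rw [← iot_hc] at h
  exact iot_mem_ext.1 h

theorem CD.le_of_gen_hom (D : CD k) (homJ : Hom (ext D.J)) {L : Ideal (RR k)}
    (hFL : iot D.F ∈ L)
    (hJL : ∀ m, ∀ a ∈ D.J, a.IsHomogeneous m →
      ∃ c, D.phi a * D.om = D.phi c ∧ X 0 * iot a - iot c ∈ L) : D.I ≤ L := by
  apply D.le_of_gen hFL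
  intro a ha
  choose! c hc using fun m => hJL m (homogeneousComponent m a) (hc_mem homJ ha m)
    (homogeneousComponent_isHomogeneous m a)
  have ha2 : a = ∑ m ∈ Finset.range (a.totalDegree + 1), homogeneousComponent m a :=
    (sum_homogeneousComponent a).symm
  refine ⟨∑ m ∈ Finset.range (a.totalDegree + 1), c m, ?_, ?_⟩
  · conv_lhs => rw [ha2]
    rw [map_sum, map_sum, Finset.sum_mul]
    exact Finset.sum_congr rfl fun m _ => (hc m).1
  · generalize a.totalDegree + 1 = N at ha2 ⊢
    have h1 : X 0 * iot a - iot (∑ m ∈ Finset.range N, c m) =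
        ∑ m ∈ Finset.range N, (X 0 * iot (homogeneousComponent m a) - iot (c m)) := by
      rw [Finset.sum_sub_distrib, ← Finset.mul_sum, ← map_sum, ← map_sum, ← ha2]
    rw [h1]
    exact Ideal.sum_mem _ fun m _ => (hc m).2

namespace Setup

variable (T : Setup k)

theorem homJ {a : k} (ha : T.Good a) : Hom (ext (T.cd ha).J) :=
  hom_ext_Jc (p := fun n => T.g - T.c n) (fun n _ => T.b_hom n) (fun n _ => T.gg_hom n) T.τ le_rfl

theorem hvec_eq {a : k} (ha : T.Good a) : ∀ n : ℕ, hvec (T.cd ha).I n = hg T.g T.τ T.c n :=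
  hvec_formula (T.cd ha) (b := T.b) (gg := T.gg) (fun n _ => T.b_hom n) (fun n _ => T.gg_hom n)
    (fun n _ => T.c_le n) (fun n _ => T.gg_mem n) (fun n _ => T.prime_b n)
    (fun n _ => not_col_dvd (T.ev1_gg n)) rfl T.hFg (T.hom_I ha)

theorem isCurve [Infinite k] {a : k} (ha : T.Good a) {h : ℕ → ℕ}
    (hh : ∀ n, hg T.g T.τ T.c n = h n) (hf : (Function.support h).Finite) :
    IsCurve (T.cd ha).I h where
  homog := T.hom_I ha
  prime := (T.cd ha).prime_I
  regular := T.regular ha
  finite := hf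
  hvector n := by
    rw [T.hvec_eq ha, hh]

theorem Jc_le_pow {a : k} (ha : T.Good a) :
    (T.cd ha).J ≤ Ideal.span {T.F} ⊔ idealOfVars (Fin 3) k ^ T.τ := by
  refine Jc_le (τ := T.τ) (fun n _ => ?_) (fun n _ => ?_) T.τ le_rfl
  · have := hom_mem_pow (T.b_hom n) (le_refl 1)
    rwa [pow_one] at this
  · by_cases h : 0 < T.c n
    · have h1 := T.hcg n h
      exact Ideal.mem_sup_right (hom_mem_pow (T.gg_hom n) (by omega))
    · rw [gg, if_neg h]
      exact Ideal.mem_sup_left (Ideal.mem_span_singleton_self _)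

theorem vert_le {a : k} (ha : T.Good a) (D : CD k) (hF : D.F = T.F) :
    (T.cd ha).I ≤ D.I ⊔ Ideal.span {X 1, X 2, X 3} ^ T.τ := by
  apply (T.cd ha).le_of_gen_hom (T.homJ ha)
  · change iot T.F ∈ _
    rw [← hF]
    exact Ideal.mem_sup_left D.F_mem_I
  · intro m g hg hgm
    rcases lt_or_ge m T.τ with hm | hm
    · -- then `F ∣ g`
      have h1 := T.Jc_le_pow ha hg
      obtain ⟨y, hy, v, hv, h2⟩ := Submodule.mem_sup.1 h1
      have h3 : homogeneousComponent m g = homogeneousComponent m y := by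
        rw [← h2, map_add, hc_pow hv hm, add_zero]
      have h4 : g ∈ Ideal.span {T.F} := by
        have h5 : homogeneousComponent m g = g := by
          rw [homogeneousComponent_of_mem (n := m) hgm, if_pos rfl]
        rw [← h5, h3]
        refine hc_mem ?_ hy m
        rw [ext_span]
        exact Hom.span (iot_hom T.hFg)
      rw [Ideal.mem_span_singleton] at h4
      refine ⟨0, ?_, ?_⟩
      · rw [(T.cd ha).phi_eq_zero.2 h4, zero_mul, map_zero]
      · rw [map_zero, sub_zero]
        refine Ideal.mem_sup_left (Ideal.mul_mem_left _ _ ?_)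
        rw [D.iot_mem_I, hF]
        exact h4
    · obtain ⟨c, hc⟩ := (T.cd ha).exists_c hg
      have h3 := T.hom_I ha _ ((T.cd ha).lin_mem_I.2 hc) (m + 1)
      have h5 : (X 0 * iot g : RR k).IsHomogeneous (m + 1) := by
        rw [add_comm]
        exact (isHomogeneous_X k 0).mul (iot_hom hgm)
      rw [map_sub, ← iot_hc, hc_self h5] at h3
      refine ⟨homogeneousComponent (m + 1) c, (T.cd ha).lin_mem_I.1 h3, ?_⟩
      refine Ideal.mem_sup_right ?_
      rw [← map_pow_vars]
      refine Ideal.sub_mem _ (Ideal.mul_mem_left _ _ ?_) ?_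
      · exact iot_mem_ext.2 (hom_mem_pow hgm hm)
      · exact iot_mem_ext.2 (hom_mem_pow (homogeneousComponent_isHomogeneous _ _) (by omega))

end Setup

end

end Pool.Agent.Helper95.ME
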